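import Pool.Agent.T6.H33.MS.Defs

namespace H33.MS

variable {K : Type} [Field K]

theorem mem_scale {c : K} {a : Submodule ℤ K} {x : K} :
    x ∈ scale c a ↔ ∃ y ∈ a, c * y = x := Submodule.mem_span_singleton_mul

theorem smul_mem_scale {c : K} {a : Submodule ℤ K} {x : K} (hx : x ∈ a) : c * x ∈ scale c a :=
  mem_scale.2 ⟨x, hx, rfl⟩

theorem scale_one (a : Submodule ℤ K) : scale 1 a = a := by
  ext x
  rw [mem_scale]
  constructor
  · rintro ⟨y, hy, rfl⟩
    rwa [one_mul]
  · intro hx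
    exact ⟨x, hx, one_mul x⟩

theorem scale_scale (c d : K) (a : Submodule ℤ K) : scale c (scale d a) = scale (c * d) a := by
  ext x
  simp only [mem_scale]
  constructor
  · rintro ⟨y, ⟨z, hz, rfl⟩, rfl⟩
    exact ⟨z, hz, by ring⟩
  · rintro ⟨z, hz, rfl⟩
    exact ⟨d * z, ⟨z, hz, rfl⟩, by ring⟩

theorem scale_mul (c : K) (a b : Submodule ℤ K) : scale c a * b = scale c (a * b) :=
  mul_assoc _ _ _

theorem mul_scale (c : K) (a b : Submodule ℤ K) : a * scale c b = scale c (a * b) := by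
  unfold scale
  rw [← mul_assoc, mul_comm a, mul_assoc]

theorem scale_inv_scale {c : K} (hc : c ≠ 0) (a : Submodule ℤ K) : scale c⁻¹ (scale c a) = a := by
  rw [scale_scale, inv_mul_cancel₀ hc, scale_one]

theorem scale_scale_inv {c : K} (hc : c ≠ 0) (a : Submodule ℤ K) : scale c (scale c⁻¹ a) = a := by
  rw [scale_scale, mul_inv_cancel₀ hc, scale_one]

theorem scale_inj {c : K} (hc : c ≠ 0) {a b : Submodule ℤ K} (h : scale c a = scale c b) :
    a = b := by
  rw [← scale_inv_scale hc a, h, scale_inv_scale hc]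

section mod

variable {O : Subalgebra ℤ K}

theorem isMod_unit : IsMod O (unitIdeal O) := fun _ hx _ hy => O.mul_mem hx hy

theorem IsMod.unit_mul {a : Submodule ℤ K} (ha : IsMod O a) : unitIdeal O * a = a := by
  apply le_antisymm
  · rw [Submodule.mul_le]
    intro x hx y hy
    exact ha x hx y hy
  · intro x hx
    have := Submodule.mul_mem_mul (M := unitIdeal O) (N := a) (show (1 : K) ∈ unitIdeal O from
      O.one_mem) hx
    rwa [one_mul] at this

theorem IsMod.mul_unit {a : Submodule ℤ K} (ha : IsMod O a) : a * unitIdeal O = a := by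
  rw [mul_comm]
  exact ha.unit_mul

theorem isMod_of_unit_mul {a : Submodule ℤ K} (h : unitIdeal O * a ≤ a) : IsMod O a :=
  fun _ hx _ hy => h (Submodule.mul_mem_mul hx hy)

theorem IsMod.mul_left {a : Submodule ℤ K} (ha : IsMod O a) (b : Submodule ℤ K) :
    IsMod O (a * b) := by
  apply isMod_of_unit_mul
  rw [← mul_assoc, ha.unit_mul]

theorem IsMod.mul_right {b : Submodule ℤ K} (hb : IsMod O b) (a : Submodule ℤ K) :
    IsMod O (a * b) := by
  rw [mul_comm]
  exact hb.mul_left a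

theorem IsMod.scale {a : Submodule ℤ K} (ha : IsMod O a) (c : K) : IsMod O (scale c a) :=
  ha.mul_right _

theorem isInvertible_unit : IsInvertible O (unitIdeal O) :=
  ⟨isMod_unit, unitIdeal O, isMod_unit, isMod_unit.unit_mul⟩

theorem IsInvertible.mul {a b : Submodule ℤ K} (ha : IsInvertible O a) (hb : IsInvertible O b) :
    IsInvertible O (a * b) := by
  obtain ⟨ha0, a', ha1, ha2⟩ := ha
  obtain ⟨hb0, b', hb1, hb2⟩ := hb
  refine ⟨ha0.mul_left b, a' * b', ha1.mul_left b', ?_⟩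
  rw [mul_mul_mul_comm, ha2, hb2, isMod_unit.unit_mul]

theorem IsInvertible.scale {a : Submodule ℤ K} (ha : IsInvertible O a) {c : K} (hc : c ≠ 0) :
    IsInvertible O (scale c a) := by
  obtain ⟨ha0, a', ha1, ha2⟩ := ha
  refine ⟨ha0.scale c, H33.MS.scale c⁻¹ a', ha1.scale _, ?_⟩
  rw [scale_mul, mul_scale, scale_scale, mul_inv_cancel₀ hc, scale_one, ha2]

/-- cancellation of invertible ideals -/
theorem IsInvertible.cancel {a b c : Submodule ℤ K} (hc : IsInvertible O c) (ha : IsMod O a)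
    (hb : IsMod O b) (h : a * c = b * c) : a = b := by
  obtain ⟨_, c', _, hc2⟩ := hc
  have : a * c * c' = b * c * c' := by rw [h]
  rw [mul_assoc, mul_assoc, hc2, ha.mul_unit, hb.mul_unit] at this
  exact this

theorem IsInvertible.ne_bot {a : Submodule ℤ K} (ha : IsInvertible O a) : a ≠ ⊥ := by
  rintro rfl
  obtain ⟨_, b, _, hb⟩ := ha
  rw [Submodule.bot_mul] at hb
  have h1 : (1 : K) ∈ unitIdeal O := O.one_mem
  rw [← hb] at h1
  exact one_ne_zero ((Submodule.mem_bot ℤ).1 h1)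

/-- the scaling factor is determined by its effect up to ... : a nonzero factor -/
theorem IsInvertible.scale_ne_zero {a : Submodule ℤ K} {c : K}
    (ha : IsInvertible O (H33.MS.scale c a)) : c ≠ 0 := by
  rintro rfl
  apply ha.ne_bot
  rw [eq_bot_iff]
  intro x hx
  obtain ⟨y, _, rfl⟩ := mem_scale.1 hx
  rw [zero_mul]
  exact Submodule.zero_mem _

end mod

section loc

variable {O : Subalgebra ℤ K} {m : Submodule ℤ K}

theorem isCop_one : IsCop O m 1 := ⟨O.one_mem, 1, O.one_mem, 0, m.zero_mem, by ring⟩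

theorem IsCop.mul (hm : IsMod O m) {s t : K} (hs : IsCop O m s) (ht : IsCop O m t) :
    IsCop O m (s * t) := by
  obtain ⟨hs0, z, hz, w, hw, h⟩ := hs
  obtain ⟨ht0, z', hz', w', hw', h'⟩ := ht
  refine ⟨O.mul_mem hs0 ht0, z * z', O.mul_mem hz hz', w + (s * z) * w', ?_, ?_⟩
  · exact m.add_mem hw (hm _ (O.mul_mem hs0 hz) _ hw')
  · calc s * t * (z * z') + (w + (s * z) * w') = (s * z) * (t * z' + w') + w := by ring
      _ = 1 := by rw [h', mul_one, h]

theorem InLoc.of_mem {a : Submodule ℤ K} {x : K} (hx : x ∈ a) : InLoc O m a x :=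
  ⟨1, isCop_one, by rwa [one_mul]⟩

theorem InLoc.mono {a b : Submodule ℤ K} (h : a ≤ b) {x : K} (hx : InLoc O m a x) :
    InLoc O m b x := by
  obtain ⟨s, hs, hx⟩ := hx
  exact ⟨s, hs, h hx⟩

theorem InLoc.mul (hm : IsMod O m) {a b : Submodule ℤ K} {x y : K} (hx : InLoc O m a x)
    (hy : InLoc O m b y) : InLoc O m (a * b) (x * y) := by
  obtain ⟨s, hs, hx⟩ := hx
  obtain ⟨t, ht, hy⟩ := hy
  refine ⟨s * t, hs.mul hm ht, ?_⟩
  have : s * t * (x * y) = (s * x) * (t * y) := by ring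
  rw [this]
  exact Submodule.mul_mem_mul hx hy

theorem InLoc.mul_unit (hm : IsMod O m) {a : Submodule ℤ K} (ha : IsMod O a) {x y : K}
    (hx : InLoc O m a x) (hy : InLoc O m (unitIdeal O) y) : InLoc O m a (x * y) := by
  have := hx.mul hm hy
  rwa [ha.mul_unit] at this

theorem InLoc.add (hm : IsMod O m) {a : Submodule ℤ K} (ha : IsMod O a) {x y : K}
    (hx : InLoc O m a x) (hy : InLoc O m a y) : InLoc O m a (x + y) := by
  obtain ⟨s, hs, hx⟩ := hx
  obtain ⟨t, ht, hy⟩ := hy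
  refine ⟨s * t, hs.mul hm ht, ?_⟩
  have : s * t * (x + y) = t * (s * x) + s * (t * y) := by ring
  rw [this]
  exact a.add_mem (ha _ ht.1 _ hx) (ha _ hs.1 _ hy)

theorem InLoc.neg {a : Submodule ℤ K} {x : K} (hx : InLoc O m a x) : InLoc O m a (-x) := by
  obtain ⟨s, hs, hx⟩ := hx
  exact ⟨s, hs, by rw [mul_neg]; exact a.neg_mem hx⟩

/-- divide by an element of `S_m` -/
theorem InLoc.of_cop_mul (hm : IsMod O m) {a : Submodule ℤ K} {x s : K} (hs : IsCop O m s)
    (hx : InLoc O m a (s * x)) : InLoc O m a x := by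
  obtain ⟨t, ht, hx⟩ := hx
  exact ⟨t * s, ht.mul hm hs, by rwa [mul_assoc]⟩

/-- The submodule `aR`. -/
def locSub (hm : IsMod O m) {a : Submodule ℤ K} (ha : IsMod O a) : Submodule ℤ K where
  carrier := {x | InLoc O m a x}
  add_mem' := fun hx hy => InLoc.add hm ha hx hy
  zero_mem' := InLoc.of_mem a.zero_mem
  smul_mem' := by
    intro c x hx
    obtain ⟨s, hs, hx⟩ := hx
    exact ⟨s, hs, by rw [mul_smul_comm]; exact a.smul_mem c hx⟩

theorem mem_locSub (hm : IsMod O m) {a : Submodule ℤ K} (ha : IsMod O a) {x : K} :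
    x ∈ locSub hm ha ↔ InLoc O m a x := Iff.rfl

theorem inMonoid_of_le {a : Submodule ℤ K} (ha : IsInvertible O a) (h : a ≤ unitIdeal O) :
    InMonoid O m a := ⟨ha, fun _ hx => InLoc.of_mem (h hx)⟩

theorem InMonoid.mul (hm : IsMod O m) {a b : Submodule ℤ K} (ha : InMonoid O m a)
    (hb : InMonoid O m b) : InMonoid O m (a * b) := by
  refine ⟨ha.1.mul hb.1, ?_⟩
  have h : a * b ≤ locSub hm (isMod_unit (O := O)) := by
    rw [Submodule.mul_le]
    intro x hx y hy
    exact (ha.2 x hx).mul_unit hm isMod_unit (hb.2 y hy)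
  exact fun x hx => h hx

end loc

section rel

variable (σ₂ : K →+* ℝ) (O : Subalgebra ℤ K) (m : Submodule ℤ K)

/-- The simple form of the relation. -/
def RelS (a b : Submodule ℤ K) : Prop :=
  ∃ l : K, 0 < σ₂ l ∧ b = scale l a ∧ ∀ x ∈ a, InLoc O m m ((l - 1) * x)

variable {σ₂ O m}

theorem ne_zero_of_pos {l : K} (h : 0 < σ₂ l) : l ≠ 0 := by
  rintro rfl
  rw [map_zero] at h
  exact lt_irrefl _ h

theorem RelS.refl (a : Submodule ℤ K) : RelS σ₂ O m a a := by
  refine ⟨1, by rw [map_one]; exact one_pos, (scale_one a).symm, ?_⟩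
  intro x _
  rw [sub_self, zero_mul]
  exact InLoc.of_mem m.zero_mem

theorem RelS.symm {a b : Submodule ℤ K} (h : RelS σ₂ O m a b) : RelS σ₂ O m b a := by
  obtain ⟨l, hl, rfl, h⟩ := h
  have h0 : l ≠ 0 := ne_zero_of_pos hl
  refine ⟨l⁻¹, by rw [map_inv₀]; exact inv_pos.2 hl, (scale_inv_scale h0 a).symm, ?_⟩
  intro x hx
  obtain ⟨y, hy, rfl⟩ := mem_scale.1 hx
  have : (l⁻¹ - 1) * (l * y) = -((l - 1) * y) := by
    field_simp
    ring
  rw [this]
  exact (h y hy).neg

theorem RelS.trans (hm : IsMod O m) {a b c : Submodule ℤ K} (h : RelS σ₂ O m a b)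
    (h' : RelS σ₂ O m b c) : RelS σ₂ O m a c := by
  obtain ⟨l, hl, rfl, h⟩ := h
  obtain ⟨k, hk, rfl, h'⟩ := h'
  refine ⟨k * l, by rw [map_mul]; exact mul_pos hk hl, scale_scale k l a, ?_⟩
  intro x hx
  have : (k * l - 1) * x = (k - 1) * (l * x) + (l - 1) * x := by ring
  rw [this]
  exact (h' _ (smul_mem_scale hx)).add hm hm (h x hx)

theorem RelS.mul (hm : IsMod O m) {a b c : Submodule ℤ K} (h : RelS σ₂ O m a b)
    (hc : InMonoid O m c) : RelS σ₂ O m (a * c) (b * c) := by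
  obtain ⟨l, hl, rfl, h⟩ := h
  refine ⟨l, hl, scale_mul l a c, ?_⟩
  have key : scale (l - 1) (a * c) ≤ locSub hm hm := by
    rw [← scale_mul, Submodule.mul_le]
    intro x hx y hy
    obtain ⟨z, hz, rfl⟩ := mem_scale.1 hx
    exact (h z hz).mul_unit hm hm (hc.2 y hy)
  intro x hx
  exact key (smul_mem_scale hx)

/-- cancellation of an ideal coprime to the modulus -/
theorem RelS.cancel (hm : IsMod O m) {a b c : Submodule ℤ K} (ha : IsMod O a) (hb : IsMod O b)
    (hc : CopIdeal O m c) (h : RelS σ₂ O m (a * c) (b * c)) : RelS σ₂ O m a b := by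
  obtain ⟨l, hl, h1, h⟩ := h
  obtain ⟨hc0, hc1, s, hs, w, hw, hsw⟩ := hc
  refine ⟨l, hl, ?_, ?_⟩
  · rw [← scale_mul] at h1
    exact hc0.cancel hb (ha.scale l) h1
  · intro x hx
    have hs' : IsCop O m s := ⟨hc1 hs, 1, O.one_mem, w, hw, by rw [mul_one]; exact hsw⟩
    apply InLoc.of_cop_mul hm hs'
    have := h (x * s) (Submodule.mul_mem_mul hx hs)
    convert this using 1
    ring

theorem RelS.inv {a b : Submodule ℤ K} (h : RelS σ₂ O m a b) (ha : IsInvertible O a) :
    IsInvertible O b := by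
  obtain ⟨l, hl, rfl, _⟩ := h
  exact ha.scale (ne_zero_of_pos hl)

/-- the textual relation implies the simple one -/
theorem Rel.toS (hm : IsMod O m) {a b : Submodule ℤ K} (h : Rel σ₂ O m a b) :
    RelS σ₂ O m a b := by
  obtain ⟨c, hc, α, β, hα, hβ, hαβ, hs, rfl, rfl⟩ := h
  have hα0 : α ≠ 0 := by
    rintro rfl
    simp at hs
  have hpos : 0 < σ₂ (β * α⁻¹) := by
    rw [map_mul, map_inv₀]
    rcases lt_trichotomy (σ₂ α) 0 with h | h | h
    · exact mul_pos_of_neg_of_neg (by nlinarith) (inv_neg''.2 h)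
    · rw [h, zero_mul] at hs
      exact absurd hs (lt_irrefl _)
    · exact mul_pos (by nlinarith) (inv_pos.2 h)
  refine ⟨β * α⁻¹, hpos, ?_, ?_⟩
  · rw [scale_scale, mul_assoc, inv_mul_cancel₀ hα0, mul_one]
  · intro x hx
    obtain ⟨y, hy, rfl⟩ := mem_scale.1 hx
    have : (β * α⁻¹ - 1) * (α * y) = -(α - β) * y := by
      field_simp
      ring
    rw [this]
    exact hαβ.neg.mul_unit hm hm (hc.2 y hy)

end rel

end H33.MS
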