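import Pool.Agent.T6.H33.MS.Sets

namespace H33.MS

variable {K : Type} [Field K]

theorem exists_reps (C : Ctx K) (hcls : ∃ S : Set (Submodule ℤ K), S.Finite ∧
    (∀ q ∈ S, Int' C.M q) ∧ ∀ t, Int' C.M t → ∃ q ∈ S, RelS C.σ₂ C.M C.f q t) :
    Nonempty (Reps C) := by
  classical
  obtain ⟨S, hS, hSi, hSr⟩ := hcls
  let s : Setoid {t : Submodule ℤ K // Int' C.M t} :=
    { r := fun t t' => RelS C.σ₂ C.M C.f t.1 t'.1
      iseqv := ⟨fun t => RelS.refl _, fun h => h.symm, fun h h' => h.trans C.hf h'⟩ }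
  let r : Submodule ℤ K → Submodule ℤ K := fun t =>
    if h : Int' C.M t then (Quotient.out (Quotient.mk s ⟨t, h⟩)).1 else t
  have hr1 : ∀ t (h : Int' C.M t), r t = (Quotient.out (Quotient.mk s ⟨t, h⟩)).1 := by
    intro t h
    simp only [r, dif_pos h]
  have hrr : ∀ t, Int' C.M t → RelS C.σ₂ C.M C.f (r t) t := by
    intro t h
    rw [hr1 t h]
    exact Quotient.mk_out (s := s) ⟨t, h⟩
  let l : Submodule ℤ K → K := fun t =>
    if h : Int' C.M t then (hrr t h).choose else 1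
  have hl1 : ∀ t (h : Int' C.M t), l t = (hrr t h).choose := by
    intro t h
    simp only [l, dif_pos h]
  have hri : ∀ t, Int' C.M t → Int' C.M (r t) := by
    intro t h
    rw [hr1 t h]
    exact (Quotient.out (Quotient.mk s ⟨t, h⟩)).2
  refine ⟨⟨r, l, hri, ?_, ?_, ?_, ?_, ?_⟩⟩
  · intro t h
    rw [hl1 t h]
    exact (hrr t h).choose_spec.1
  · intro t h
    rw [hl1 t h]
    exact (hrr t h).choose_spec.2.1
  · intro t h
    rw [hl1 t h]
    exact (hrr t h).choose_spec.2.2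
  · intro t t' h h' hrel
    rw [hr1 t h, hr1 t' h']
    have : Quotient.mk s ⟨t, h⟩ = Quotient.mk s ⟨t', h'⟩ := Quotient.sound hrel
    rw [this]
  · refine Set.Finite.subset (hS.image r) ?_
    rintro q ⟨t, ht, rfl⟩
    obtain ⟨q, hq, hqt⟩ := hSr t ht
    refine ⟨q, hq, ?_⟩
    rw [hr1 t ht, hr1 q (hSi q hq)]
    have : Quotient.mk s ⟨q, hSi q hq⟩ = Quotient.mk s ⟨t, ht⟩ := Quotient.sound hqt
    rw [this]

theorem finite_quot (q : Submodule ℤ K) (hq : q.FG) {N : ℕ} (hN : 0 < N) :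
    Finite (↥q ⧸ (scale (N : K) q).submoduleOf q) := by
  have : Module.Finite ℤ q := Module.Finite.iff_fg.2 hq
  apply Module.finite_of_fg_torsion
  intro x
  induction x using Submodule.Quotient.induction_on with
  | _ x =>
    refine ⟨⟨(N : ℤ), mem_nonZeroDivisors_of_ne_zero (by exact_mod_cast hN.ne')⟩, ?_⟩
    rw [Submonoid.mk_smul, ← Submodule.Quotient.mk_smul, Submodule.Quotient.mk_eq_zero]
    refine (mem_scale (c := (N : K)) (a := q) (x := (((N : ℤ) • x : q) : K))).2 ⟨x.1, x.2, ?_⟩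
    simp

theorem fg_scale {q : Submodule ℤ K} (hq : q.FG) (c : K) : (scale c q).FG :=
  (Submodule.fg_span_singleton c).mul hq

/-- finitely many classes among the multiples of a fixed ideal -/
theorem finite_mult (C : Ctx K) (hfg : ∀ q : Submodule ℤ K, q ≤ unitIdeal C.M → q.FG)
    (j : Submodule ℤ K) (hj : j ≠ ⊥) :
    ∃ B : Set K, B.Finite ∧ (∀ β ∈ B, β ≠ 0 ∧ scale β j ≤ unitIdeal C.M) ∧
      ∀ α : K, α ≠ 0 → scale α j ≤ unitIdeal C.M →
        ∃ β ∈ B, 0 < C.σ₂ α * C.σ₂ β ∧ ∀ x ∈ j, (α - β) * x ∈ C.f := by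
  classical
  let D : Submodule ℤ K :=
    { carrier := {α | ∀ x ∈ j, α * x ∈ C.M}
      add_mem' := fun {a b} ha hb x hx => by
        rw [add_mul]; exact C.M.add_mem (ha x hx) (hb x hx)
      zero_mem' := fun x _ => by rw [zero_mul]; exact C.M.zero_mem
      smul_mem' := fun c a ha x hx => by
        rw [smul_mul_assoc]; exact C.M.smul_mem (ha x hx) c }
  have hDm : ∀ {α : K}, α ∈ D ↔ scale α j ≤ unitIdeal C.M := by
    intro α
    constructor
    · intro h x hx
      obtain ⟨y, hy, rfl⟩ := mem_scale.1 hx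
      exact h y hy
    · intro h x hx
      exact h (smul_mem_scale hx)
  obtain ⟨z, hz, hz0⟩ := (Submodule.ne_bot_iff j).1 hj
  have hD : D.FG := by
    have h1 : scale z D ≤ unitIdeal C.M := by
      intro x hx
      obtain ⟨y, hy, rfl⟩ := mem_scale.1 hx
      rw [mul_comm]
      exact hy z hz
    have h2 := fg_scale (hfg _ h1) z⁻¹
    rwa [scale_inv_scale hz0] at h2
  have hN : 0 < C.N := lt_of_lt_of_le two_pos C.hN
  have := finite_quot D hD hN
  let φ : {α : K // α ≠ 0 ∧ α ∈ D} → (↥D ⧸ (scale (C.N : K) D).submoduleOf D) × Bool :=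
    fun α => (Submodule.Quotient.mk ⟨α.1, α.2.2⟩, decide (0 < C.σ₂ α.1))
  refine ⟨Set.range (fun v : Set.range φ => (v.2.choose).1), Set.finite_range _, ?_, ?_⟩
  · rintro β ⟨v, rfl⟩
    exact ⟨v.2.choose.2.1, hDm.1 v.2.choose.2.2⟩
  · intro α hα0 hα
    have hαD := hDm.2 hα
    let v : Set.range φ := ⟨φ ⟨α, hα0, hαD⟩, ⟨⟨α, hα0, hαD⟩, rfl⟩⟩
    have hv : φ v.2.choose = φ ⟨α, hα0, hαD⟩ := v.2.choose_spec
    refine ⟨(v.2.choose).1, ⟨v, rfl⟩, ?_, ?_⟩
    · have h1 : decide (0 < C.σ₂ (v.2.choose).1) = decide (0 < C.σ₂ α) :=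
        congrArg Prod.snd hv
      have h2 : C.σ₂ (v.2.choose).1 ≠ 0 := (map_ne_zero _).2 v.2.choose.2.1
      have h3 : C.σ₂ α ≠ 0 := (map_ne_zero _).2 hα0
      have h4 : 0 < C.σ₂ (v.2.choose).1 ↔ 0 < C.σ₂ α := decide_eq_decide.1 h1
      rcases lt_or_gt_of_ne h3 with h | h
      · rcases lt_or_gt_of_ne h2 with h' | h'
        · exact mul_pos_of_neg_of_neg h h'
        · exact absurd (h4.1 h') (not_lt.2 h.le)
      · exact mul_pos h (h4.2 h)
    · intro x hx
      have h1 : (Submodule.Quotient.mk ⟨(v.2.choose).1, (v.2.choose).2.2⟩ :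
          ↥D ⧸ (scale (C.N : K) D).submoduleOf D) = Submodule.Quotient.mk ⟨α, hαD⟩ :=
        congrArg Prod.fst hv
      have h2 := (Submodule.Quotient.eq _).1 h1.symm
      have h3 : α - (v.2.choose).1 ∈ scale (C.N : K) D := h2
      obtain ⟨γ, hγ, h4⟩ := mem_scale.1 h3
      rw [← h4]
      have e : (C.N : K) * γ * x = (γ * x) * (C.N : K) := by ring
      rw [e]
      exact C.hf _ (hγ x hx) _ C.hNf

/-- The class number is finite, in the language of subgroups of `K`. -/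
theorem finite_ideal_classes [NumberField K] :
    ∃ j : ClassGroup (NumberField.RingOfIntegers K) → Submodule ℤ K,
      (∀ g, j g ≠ ⊥) ∧ ∀ t, Int' (integralClosure ℤ K) t →
        ∃ g, ∃ α : K, α ≠ 0 ∧ t = scale α (j g) := by
  classical
  let ρ : NumberField.RingOfIntegers K →+* K := algebraMap (NumberField.RingOfIntegers K) K
  have hρ : Function.Injective ρ := FaithfulSMul.algebraMap_injective _ _
  have hlift : ∀ x ∈ unitIdeal (integralClosure ℤ K), ∃ x' : NumberField.RingOfIntegers K,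
      ρ x' = x := fun x hx => ⟨⟨x, hx⟩, rfl⟩
  have hint : ∀ x' : NumberField.RingOfIntegers K, ρ x' ∈ integralClosure ℤ K := fun x' => x'.2
  let J : ClassGroup (NumberField.RingOfIntegers K) →
      nonZeroDivisors (Ideal (NumberField.RingOfIntegers K)) :=
    fun g => (ClassGroup.mk0_surjective g).choose
  have hJ : ∀ g, ClassGroup.mk0 (J g) = g := fun g => (ClassGroup.mk0_surjective g).choose_spec
  let sub : Ideal (NumberField.RingOfIntegers K) → Submodule ℤ K := fun I =>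
    { carrier := {x | ∃ y ∈ I, ρ y = x}
      add_mem' := by
        rintro a b ⟨y, hy, rfl⟩ ⟨z, hz, rfl⟩
        exact ⟨y + z, I.add_mem hy hz, by rw [map_add]⟩
      zero_mem' := ⟨0, I.zero_mem, by rw [map_zero]⟩
      smul_mem' := by
        rintro c x ⟨y, hy, rfl⟩
        refine ⟨(c : NumberField.RingOfIntegers K) * y, I.mul_mem_left _ hy, ?_⟩
        rw [map_mul, map_intCast, zsmul_eq_mul] }
  refine ⟨fun g => sub (J g), ?_, ?_⟩
  · intro g h
    have h0 : ((J g : Ideal (NumberField.RingOfIntegers K))) ≠ ⊥ :=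
      nonZeroDivisors.coe_ne_zero (J g)
    obtain ⟨x, hx, hx0⟩ := (Submodule.ne_bot_iff _).1 h0
    have : ρ x ∈ sub (J g) := ⟨x, hx, rfl⟩
    have h : sub (J g) = ⊥ := h
    rw [h, Submodule.mem_bot] at this
    exact hx0 (hρ (by rw [this, map_zero]))
  · intro t ht
    let I : Ideal (NumberField.RingOfIntegers K) :=
      { carrier := {x | ρ x ∈ t}
        add_mem' := by
          intro a b ha hb
          change ρ (a + b) ∈ t
          rw [map_add]
          exact t.add_mem ha hb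
        zero_mem' := by
          change ρ 0 ∈ t
          rw [map_zero]
          exact t.zero_mem
        smul_mem' := by
          intro c x hx
          change ρ (c • x) ∈ t
          rw [smul_eq_mul, map_mul]
          exact ht.1.1 _ (hint c) _ hx }
    have hI : ∀ x : NumberField.RingOfIntegers K, x ∈ I ↔ ρ x ∈ t := fun x => Iff.rfl
    have hI0 : I ≠ ⊥ := by
      obtain ⟨x, hx, hx0⟩ := (Submodule.ne_bot_iff _).1 ht.1.ne_bot
      obtain ⟨x', rfl⟩ := hlift x (ht.2 hx)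
      intro h
      have h1 : x' ∈ I := hx
      rw [h, Ideal.mem_bot] at h1
      exact hx0 (by rw [h1, map_zero])
    let I' : nonZeroDivisors (Ideal (NumberField.RingOfIntegers K)) :=
      ⟨I, mem_nonZeroDivisors_of_ne_zero hI0⟩
    have hcl : ClassGroup.mk0 I' = ClassGroup.mk0 (J (ClassGroup.mk0 I')) := (hJ _).symm
    obtain ⟨x, y, hx, hy, hxy⟩ := (ClassGroup.mk0_eq_mk0_iff).1 hcl
    have hx' : ρ x ≠ 0 := fun h => hx (hρ (by rw [h, map_zero]))
    have hy' : ρ y ≠ 0 := fun h => hy (hρ (by rw [h, map_zero]))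
    refine ⟨ClassGroup.mk0 I', ρ y * (ρ x)⁻¹, mul_ne_zero hy' (inv_ne_zero hx'), ?_⟩
    ext u
    constructor
    · intro hu
      obtain ⟨u', rfl⟩ := hlift u (ht.2 hu)
      have huI : u' ∈ I := hu
      have h1 : x * u' ∈ Ideal.span {x} * (I' : Ideal (NumberField.RingOfIntegers K)) :=
        Ideal.mul_mem_mul (Ideal.mem_span_singleton_self x) huI
      rw [hxy] at h1
      obtain ⟨v, hv, hvu⟩ := Ideal.mem_span_singleton_mul.1 h1
      refine mem_scale.2 ⟨ρ v, ⟨v, hv, rfl⟩, ?_⟩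
      have h2 : ρ y * ρ v = ρ x * ρ u' := by rw [← map_mul, ← map_mul, hvu]
      field_simp
      linear_combination h2
    · intro hu
      obtain ⟨v', ⟨v, hv, rfl⟩, rfl⟩ := mem_scale.1 hu
      have h1 : y * v ∈ Ideal.span {y} *
          ((J (ClassGroup.mk0 I') : nonZeroDivisors (Ideal (NumberField.RingOfIntegers K))) :
            Ideal (NumberField.RingOfIntegers K)) :=
        Ideal.mul_mem_mul (Ideal.mem_span_singleton_self y) hv
      rw [← hxy] at h1
      obtain ⟨w, hw, hwv⟩ := Ideal.mem_span_singleton_mul.1 h1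
      have hw' : ρ w ∈ t := hw
      have h2 : ρ x * ρ w = ρ y * ρ v := by rw [← map_mul, ← map_mul, hwv]
      have h3 : ρ y * (ρ x)⁻¹ * ρ v = ρ w := by
        field_simp
        linear_combination -h2
      rw [h3]
      exact hw'

theorem finite_classes [NumberField K] (C : Ctx K) (hM : C.M = integralClosure ℤ K)
    (hfg : ∀ q : Submodule ℤ K, q ≤ unitIdeal C.M → q.FG) :
    ∃ S : Set (Submodule ℤ K), S.Finite ∧
    (∀ q ∈ S, Int' C.M q) ∧ ∀ t, Int' C.M t → ∃ q ∈ S, RelS C.σ₂ C.M C.f q t := by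
  classical
  obtain ⟨j, hj0, hj⟩ := finite_ideal_classes (K := K)
  choose B hB1 hB2 hB3 using fun g => finite_mult C hfg (j g) (hj0 g)
  refine ⟨{q | Int' C.M q ∧ ∃ g, ∃ β ∈ B g, q = scale β (j g)}, ?_, fun q hq => hq.1, ?_⟩
  · refine Set.Finite.subset (Set.finite_iUnion (fun g => (hB1 g).image (fun β => scale β (j g))))
      ?_
    rintro q ⟨_, g, β, hβ, rfl⟩
    exact Set.mem_iUnion.2 ⟨g, β, hβ, rfl⟩
  · intro t ht
    obtain ⟨g, α, hα, htα⟩ := hj t (hM ▸ ht)
    obtain ⟨β, hβ, hs, hd⟩ := hB3 g α hα (htα ▸ ht.2)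
    obtain ⟨hβ0, hβM⟩ := hB2 g β hβ
    have hjg : j g = scale α⁻¹ t := by rw [htα, scale_inv_scale hα]
    have hq : Int' C.M (scale β (j g)) := by
      refine ⟨?_, hβM⟩
      rw [hjg, scale_scale]
      exact ht.1.scale (mul_ne_zero hβ0 (inv_ne_zero hα))
    refine ⟨scale β (j g), ⟨hq, g, β, hβ, rfl⟩, α * β⁻¹, ?_, ?_, ?_⟩
    · rw [map_mul, map_inv₀]
      have h2 : C.σ₂ β ≠ 0 := (map_ne_zero _).2 hβ0
      have h3 : C.σ₂ α * (C.σ₂ β)⁻¹ = (C.σ₂ α * C.σ₂ β) * ((C.σ₂ β)⁻¹ * (C.σ₂ β)⁻¹) := by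
        field_simp
      rw [h3]
      exact mul_pos hs (mul_self_pos.2 (inv_ne_zero h2))
    · rw [scale_scale, mul_assoc, inv_mul_cancel₀ hβ0, mul_one, htα]
    · intro x hx
      obtain ⟨u, hu, rfl⟩ := mem_scale.1 hx
      have e : (α * β⁻¹ - 1) * (β * u) = (α - β) * u := by
        field_simp
      rw [e]
      exact InLoc.of_mem (hd u hu)

end H33.MS
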