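import Mathlib

/-!
# Definitions for the monoid Stark conjecture for orders of real quadratic fields

`K` is a number field with two real embeddings `σ₁`, `σ₂` (in the final statement `K` is real
quadratic and `σ₁ ≠ σ₂`).  Fractional ideals of an order `O` of `K` are additive subgroups of
`K`, written as terms of `Submodule ℤ K` with Mathlib's product.
-/

namespace H33.MS

variable {K : Type} [Field K]

/-- `O` is an order of `K`: its elements are algebraic integers and it contains `n O_K` for some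
positive integer `n`. -/
def IsOrder (O : Subalgebra ℤ K) : Prop :=
  (∀ x ∈ O, IsIntegral ℤ x) ∧ ∃ n : ℕ, 0 < n ∧ ∀ x : K, IsIntegral ℤ x → (n : K) * x ∈ O

/-- The order `O` as an additive subgroup of `K`. -/
abbrev unitIdeal (O : Subalgebra ℤ K) : Submodule ℤ K := Subalgebra.toSubmodule O

/-- `a` is stable under multiplication by `O`. -/
def IsMod (O : Subalgebra ℤ K) (a : Submodule ℤ K) : Prop := ∀ x ∈ O, ∀ y ∈ a, x * y ∈ a

/-- `a` is an invertible fractional ideal of `O`. -/
def IsInvertible (O : Subalgebra ℤ K) (a : Submodule ℤ K) : Prop :=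
  IsMod O a ∧ ∃ b : Submodule ℤ K, IsMod O b ∧ a * b = unitIdeal O

/-- The set `S_m` of the `s` in `O` with `sO + m = O`. -/
def IsCop (O : Subalgebra ℤ K) (m : Submodule ℤ K) (s : K) : Prop :=
  s ∈ O ∧ ∃ z ∈ O, ∃ w ∈ m, s * z + w = 1

/-- `x` lies in `aR`, where `R = O[S_m⁻¹]`, for an `O`-submodule `a` of `K`. -/
def InLoc (O : Subalgebra ℤ K) (m a : Submodule ℤ K) (x : K) : Prop :=
  ∃ s : K, IsCop O m s ∧ s * x ∈ a

/-- `a` is an invertible fractional ideal of `O` with `aR ⊆ R`. -/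
def InMonoid (O : Subalgebra ℤ K) (m a : Submodule ℤ K) : Prop :=
  IsInvertible O a ∧ ∀ x ∈ a, InLoc O m (unitIdeal O) x

/-- The fractional ideal `c a`, for `c` in `K`. -/
def scale (c : K) (a : Submodule ℤ K) : Submodule ℤ K := Submodule.span ℤ {c} * a

/-- The equivalence relation defining the ray class monoid: `a = αc`, `b = βc` with `c`
invertible, `cR ⊆ R`, with `α`, `β` in `R`, `α - β` in `mR`, and `σ₂(α)`, `σ₂(β)` of the same sign
(both are nonzero when `a` and `b` are invertible). -/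
def Rel (σ₂ : K →+* ℝ) (O : Subalgebra ℤ K) (m a b : Submodule ℤ K) : Prop :=
  ∃ c : Submodule ℤ K, InMonoid O m c ∧ ∃ α β : K,
    InLoc O m (unitIdeal O) α ∧ InLoc O m (unitIdeal O) β ∧ InLoc O m m (α - β) ∧
    0 < σ₂ α * σ₂ β ∧ a = scale α c ∧ b = scale β c

/-- The index `[a : b]` of additive subgroups of `K`. -/
noncomputable def idx (a b : Submodule ℤ K) : ℕ := b.toAddSubgroup.relIndex a.toAddSubgroup

/-- The ideal `(m : O_K)`, the set of `x` with `x O_K ⊆ m`. -/
def colon (m : Submodule ℤ K) : Submodule ℤ K where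
  carrier := {x | ∀ y : K, IsIntegral ℤ y → y * x ∈ m}
  add_mem' := by
    intro a b ha hb y hy
    rw [mul_add]
    exact m.add_mem (ha y hy) (hb y hy)
  zero_mem' := by
    intro y _
    rw [mul_zero]
    exact m.zero_mem
  smul_mem' := by
    intro c x hx y hy
    rw [mul_smul_comm]
    exact m.smul_mem c (hx y hy)

/-- `b` is an integral invertible ideal of `O` with `b + n = O`. -/
def CopIdeal (O : Subalgebra ℤ K) (n b : Submodule ℤ K) : Prop :=
  IsInvertible O b ∧ b ≤ unitIdeal O ∧ ∃ x ∈ b, ∃ w ∈ n, x + w = 1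

/-- The integral invertible ideals of `O` in the class of `a`. -/
abbrev ClassIdeals (σ₂ : K →+* ℝ) (O : Subalgebra ℤ K) (m a : Submodule ℤ K) : Type :=
  {b : Submodule ℤ K // IsInvertible O b ∧ b ≤ unitIdeal O ∧ Rel σ₂ O m a b}

/-- `G` is the family of the (analytically continued) partial zeta functions of the classes of the
ray class monoid: `G a` only depends on the class of `a`, it is holomorphic away from `1`, and
for `Re s > 1` it is the sum of the `[O : b]^(-s)` over the integral invertible ideals `b` in the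
class of `a`. -/
def IsZeta (σ₂ : K →+* ℝ) (O : Subalgebra ℤ K) (m : Submodule ℤ K)
    (G : Submodule ℤ K → ℂ → ℂ) : Prop :=
  ∀ a : Submodule ℤ K, InMonoid O m a →
    (∀ b : Submodule ℤ K, InMonoid O m b → Rel σ₂ O m a b → G a = G b) ∧
    DifferentiableOn ℂ (G a) {1}ᶜ ∧
    ∀ s : ℂ, 1 < s.re →
      HasSum (fun b : ClassIdeals σ₂ O m a => ((idx (unitIdeal O) b.1 : ℕ) : ℂ) ^ (-s)) (G a s)

/-- The prime `P ∩ O_K` of `O_K` below a prime `P` of the ring of integers of `H`, as an additive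
subgroup of `K`. -/
def below {H : Type} [Field H] [Algebra K H] (P : Ideal (integralClosure ℤ H)) :
    Submodule ℤ K where
  carrier := {x | ∃ y ∈ P, (y : H) = algebraMap K H x}
  add_mem' := by
    rintro a b ⟨y, hy, h1⟩ ⟨z, hz, h2⟩
    exact ⟨y + z, P.add_mem hy hz, by rw [map_add, ← h1, ← h2]; rfl⟩
  zero_mem' := ⟨0, P.zero_mem, by rw [map_zero]; rfl⟩
  smul_mem' := by
    rintro c x ⟨y, hy, h1⟩
    refine ⟨c • y, ?_, ?_⟩
    · rw [zsmul_eq_mul]
      exact P.mul_mem_left _ hy
    · rw [zsmul_eq_mul, zsmul_eq_mul, map_mul, map_intCast, ← h1]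
      simp

/-- `H`, with the map `Art` on integral invertible ideals of `O` coprime to `(m : O_K)`, is the
ray class field of `(O, m)` with its Artin isomorphism: `Art` is multiplicative and surjective,
`Art b = 1` exactly if `b` is in the class of `O` in the ray class monoid, and for each prime `P`
of `H` over a prime `p` of `O_K` coprime to `(m : O_K)`, the automorphism `Art (p ∩ O)` is a
Frobenius automorphism at `P`. -/
def IsRayClassField (σ₂ : K →+* ℝ) (O : Subalgebra ℤ K) (m : Submodule ℤ K)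
    (H : Type) [Field H] [Algebra K H] (Art : Submodule ℤ K → (H ≃ₐ[K] H)) : Prop :=
  (∀ b c : Submodule ℤ K, CopIdeal O (colon m) b → CopIdeal O (colon m) c →
    Art (b * c) = Art b * Art c) ∧
  (∀ g : H ≃ₐ[K] H, ∃ b : Submodule ℤ K, CopIdeal O (colon m) b ∧ Art b = g) ∧
  (∀ b : Submodule ℤ K, CopIdeal O (colon m) b →
    (Art b = 1 ↔ Rel σ₂ O m (unitIdeal O) b)) ∧
  ∀ P : Ideal (integralClosure ℤ H), P.IsPrime →
    (∃ x ∈ below (K := K) P, ∃ w ∈ colon m, x + w = 1) →
    ∀ x : integralClosure ℤ H, ∃ y ∈ P,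
      (y : H) = Art (below (K := K) P ⊓ unitIdeal O) (x : H)
        - (x : H) ^ idx (unitIdeal (integralClosure ℤ K)) (below (K := K) P)

/-- Conditions (i)-(iv) of the monoid Stark conjecture for the family `ε` of units of `H`, indexed
by the ideals of the monoid and constant on classes.  In (i), `αO` is in the class `ℛ`.
Condition (iii) is about the embeddings `τ` of `H` in `ℂ` which extend `σ₂`.
Condition (iv), for `H / K` abelian, says that `H(√ε)` is abelian over `K`: the automorphisms of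
`ℂ` over `σ₁(K)` commute on each square root of `ε`. -/
def StarkUnits (σ₁ σ₂ : K →+* ℝ) (O : Subalgebra ℤ K) (m : Submodule ℤ K)
    (H : Type) [Field H] [Algebra K H] (Art : Submodule ℤ K → (H ≃ₐ[K] H)) (ι : H →+* ℝ)
    (G : Submodule ℤ K → ℂ → ℂ) (ε : Submodule ℤ K → H) : Prop :=
  ∀ a : Submodule ℤ K, InMonoid O m a →
    (∀ b : Submodule ℤ K, InMonoid O m b → Rel σ₂ O m a b → ε a = ε b) ∧
    (IsIntegral ℤ (ε a) ∧ IsIntegral ℤ (ε a)⁻¹) ∧
    (∀ α ∈ O, α + 1 ∈ m → 0 < σ₂ α →
      ((ι (ε a) : ℝ) : ℂ) = Complex.exp (-deriv (fun s => G a s - G (scale α a) s) 0)) ∧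
    (∀ b : Submodule ℤ K, CopIdeal O (colon m) b → Art b (ε a) = ε (a * b)) ∧
    (∀ τ : H →+* ℂ, (∀ x : K, τ (algebraMap K H x) = ((σ₂ x : ℝ) : ℂ)) → ‖τ (ε a)‖ = 1) ∧
    (∀ z : ℂ, z ^ 2 = ((ι (ε a) : ℝ) : ℂ) → ∀ s t : ℂ ≃+* ℂ,
      (∀ x : K, s ((σ₁ x : ℝ) : ℂ) = ((σ₁ x : ℝ) : ℂ)) →
      (∀ x : K, t ((σ₁ x : ℝ) : ℂ) = ((σ₁ x : ℝ) : ℂ)) → s (t z) = t (s z))

/-- The monoid Stark conjecture for `(K, O, m)`: there are a finite abelian extension `H` of `K`
with an embedding `ι` in `ℝ` extending `σ₁`, which is the ray class field of `(O, m)`, the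
partial zeta functions of the classes of the ray class monoid (continued analytically), and a
family of units of `H` indexed by the classes with the properties (i)-(iv). -/
def MonoidStark (σ₁ σ₂ : K →+* ℝ) (O : Subalgebra ℤ K) (m : Submodule ℤ K) : Prop :=
  ∃ (H : Type) (_ : Field H) (_ : Algebra K H) (_ : FiniteDimensional K H) (_ : IsGalois K H)
    (Art : Submodule ℤ K → (H ≃ₐ[K] H)) (ι : H →+* ℝ) (G : Submodule ℤ K → ℂ → ℂ)
    (ε : Submodule ℤ K → H),
    (∀ g h : H ≃ₐ[K] H, g * h = h * g) ∧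
    (∀ x : K, ι (algebraMap K H x) = σ₁ x) ∧
    IsRayClassField σ₂ O m H Art ∧ IsZeta σ₂ O m G ∧ StarkUnits σ₁ σ₂ O m H Art ι G ε

/-- `m` is a nonzero integral ideal of `O`, different from `O`. -/
def IsModulus (O : Subalgebra ℤ K) (m : Submodule ℤ K) : Prop :=
  IsMod O m ∧ m ≤ unitIdeal O ∧ m ≠ ⊥ ∧ m ≠ unitIdeal O

end H33.MS
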