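import Pool.Agent.T6.H33.MS.Basic

namespace H33.MS

variable {K : Type} [Field K]

/-- The data of an order `O` in a larger order `M`, a modulus `m` for `O` and a modulus `f` for
`M` contained in `m`. -/
structure Ctx (K : Type) [Field K] where
  σ₂ : K →+* ℝ
  O : Subalgebra ℤ K
  M : Subalgebra ℤ K
  m : Submodule ℤ K
  f : Submodule ℤ K
  hOM : O ≤ M
  hm : IsMod O m
  hf : IsMod M f
  hfm : f ≤ m
  hmO : m ≤ unitIdeal O
  N : ℕ
  hN : 2 ≤ N
  hNf : (N : K) ∈ f

namespace Ctx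

variable (C : Ctx K)

/-- Extension of an ideal of `O` to `M`. -/
def ex (a : Submodule ℤ K) : Submodule ℤ K := a * unitIdeal C.M

theorem hfO : C.f ≤ unitIdeal C.O := C.hfm.trans C.hmO

theorem unit_mul_M : unitIdeal C.O * unitIdeal C.M = unitIdeal C.M := by
  apply IsMod.unit_mul
  intro x hx y hy
  exact C.M.mul_mem (C.hOM hx) hy

theorem isMod_of_M {a : Submodule ℤ K} (h : IsMod C.M a) : IsMod C.O a :=
  fun x hx y hy => h x (C.hOM hx) y hy

theorem isMod_ex (a : Submodule ℤ K) : IsMod C.M (C.ex a) := isMod_unit.mul_right a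

theorem ex_unit : C.ex (unitIdeal C.O) = unitIdeal C.M := C.unit_mul_M

theorem le_ex (a : Submodule ℤ K) : a ≤ C.ex a := by
  intro x hx
  have := Submodule.mul_mem_mul (M := a) (N := unitIdeal C.M) hx
    (show (1 : K) ∈ unitIdeal C.M from C.M.one_mem)
  rwa [mul_one] at this

theorem ex_le {a : Submodule ℤ K} (h : a ≤ unitIdeal C.O) : C.ex a ≤ unitIdeal C.M := by
  unfold ex
  rw [Submodule.mul_le]
  intro x hx y hy
  exact C.M.mul_mem (C.hOM (h hx)) hy

theorem ex_mul (a b : Submodule ℤ K) : C.ex (a * b) = C.ex a * C.ex b := by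
  unfold ex
  rw [mul_mul_mul_comm, isMod_unit.unit_mul]

theorem ex_scale (c : K) (a : Submodule ℤ K) : C.ex (scale c a) = scale c (C.ex a) :=
  scale_mul _ _ _

theorem ex_inv {a : Submodule ℤ K} (h : IsInvertible C.O a) : IsInvertible C.M (C.ex a) := by
  obtain ⟨h0, a', h1, h2⟩ := h
  refine ⟨C.isMod_ex a, C.ex a', C.isMod_ex a', ?_⟩
  rw [← C.ex_mul, h2, C.ex_unit]

theorem mem_f {y : K} (hy : y ∈ C.M) (h : InLoc C.M C.f C.f y) : y ∈ C.f := by
  obtain ⟨s, ⟨_, z, hz, w, hw, h1⟩, hs⟩ := h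
  have : y = z * (s * y) + y * w := by
    calc y = (s * z + w) * y := by rw [h1, one_mul]
      _ = _ := by ring
  rw [this]
  exact C.f.add_mem (C.hf z hz _ hs) (C.hf y hy w hw)

/-- the key trick -/
theorem key {a : Submodule ℤ K} (ha : a ≤ unitIdeal C.O) {l : K}
    (h1 : scale l (C.ex a) ≤ unitIdeal C.M)
    (h2 : ∀ x ∈ C.ex a, InLoc C.M C.f C.f ((l - 1) * x)) :
    ∀ x ∈ C.ex a, (l - 1) * x ∈ C.f := by
  intro x hx
  apply C.mem_f _ (h2 x hx)
  have e1 : l * x ∈ C.M := h1 (smul_mem_scale hx)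
  have e2 : x ∈ C.M := C.ex_le ha hx
  rw [sub_mul, one_mul]
  exact C.M.sub_mem e1 e2

theorem key_le {a : Submodule ℤ K} (ha : a ≤ unitIdeal C.O) {l : K}
    (h : ∀ x ∈ C.ex a, (l - 1) * x ∈ C.f) : scale l a ≤ unitIdeal C.O := by
  intro x hx
  obtain ⟨y, hy, rfl⟩ := mem_scale.1 hx
  have : l * y = (l - 1) * y + y := by ring
  rw [this]
  exact (unitIdeal C.O).add_mem (C.hfO (h y (C.le_ex a hy))) (ha hy)

theorem key_rel {a : Submodule ℤ K} {l : K} (hl : 0 < C.σ₂ l)
    (h : ∀ x ∈ C.ex a, (l - 1) * x ∈ C.f) : RelS C.σ₂ C.O C.m a (scale l a) :=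
  ⟨l, hl, rfl, fun x hx => InLoc.of_mem (C.hfm (h x (C.le_ex a hx)))⟩

/-- the two ideals coprime to `f` attached to each other -/
theorem cop_ex {b : Submodule ℤ K} (h : CopIdeal C.O C.f b) : CopIdeal C.M C.f (C.ex b) := by
  obtain ⟨h0, h1, x, hx, w, hw, h2⟩ := h
  exact ⟨C.ex_inv h0, C.ex_le h1, x, C.le_ex b hx, w, hw, h2⟩

theorem cop_inf {b : Submodule ℤ K} (h : CopIdeal C.O C.f b) : C.ex b ⊓ unitIdeal C.O = b := by
  obtain ⟨h0, h1, x, hx, w, hw, h2⟩ := h
  apply le_antisymm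
  · rintro y ⟨hy1, hy2⟩
    have e : y = y * x + y * w := by rw [← mul_add, h2, mul_one]
    rw [e]
    refine b.add_mem (h0.1 y hy2 x hx) ?_
    -- `y * w ∈ b`
    have e1 : C.ex b * C.f ≤ b := by
      unfold ex
      rw [mul_assoc, C.hf.unit_mul, mul_comm, Submodule.mul_le]
      intro u hu v hv
      exact h0.1 u (C.hfO hu) v hv
    exact e1 (Submodule.mul_mem_mul hy1 hw)
  · exact le_inf (C.le_ex b) h1

theorem cop_mul {M : Subalgebra ℤ K} {f : Submodule ℤ K} (hf : IsMod M f)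
    {b c : Submodule ℤ K} (h : CopIdeal M f b) (h' : CopIdeal M f c) :
    CopIdeal M f (b * c) := by
  obtain ⟨h0, h1, x, hx, w, hw, h2⟩ := h
  obtain ⟨h0', h1', x', hx', w', hw', h2'⟩ := h'
  refine ⟨h0.mul h0', ?_, x * x', Submodule.mul_mem_mul hx hx', w + x * w',
    f.add_mem hw (hf x (h1 hx) w' hw'), ?_⟩
  · rw [Submodule.mul_le]
    intro y hy z hz
    exact M.mul_mem (h1 hy) (h1' hz)
  · calc x * x' + (w + x * w') = x * (x' + w') + w := by ring
      _ = 1 := by rw [h2', mul_one, h2]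

theorem isMod_f : IsMod C.O C.f := C.isMod_of_M C.hf

theorem cop_contr {b : Submodule ℤ K} (h : CopIdeal C.M C.f b) :
    CopIdeal C.O C.f (b ⊓ unitIdeal C.O) ∧ C.ex (b ⊓ unitIdeal C.O) = b := by
  obtain ⟨⟨h0, b', hb1, hb2⟩, h1, x, hx, w, hw, h2⟩ := h
  have hxO : x ∈ unitIdeal C.O := by
    have : x = 1 - w := by rw [← h2]; ring
    rw [this]
    exact (unitIdeal C.O).sub_mem C.O.one_mem (C.hfO hw)
  have hxb : x ∈ b ⊓ unitIdeal C.O := ⟨hx, hxO⟩
  have hbf : b * C.f ≤ b ⊓ unitIdeal C.O := by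
    rw [Submodule.mul_le]
    intro y hy z hz
    refine ⟨?_, C.hfO (C.hf y (h1 hy) z hz)⟩
    rw [mul_comm]
    exact h0 z (C.hOM (C.hfO hz)) y hy
  have hex : C.ex (b ⊓ unitIdeal C.O) = b := by
    apply le_antisymm
    · unfold ex
      rw [Submodule.mul_le]
      intro y hy z hz
      rw [mul_comm]
      exact h0 z hz y hy.1
    · intro y hy
      have e : y = x * y + y * w := by
        rw [mul_comm x y, ← mul_add, h2, mul_one]
      rw [e]
      refine (C.ex _).add_mem (Submodule.mul_mem_mul hxb (h1 hy)) ?_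
      exact C.le_ex _ (hbf (Submodule.mul_mem_mul hy hw))
  have hmodb : IsMod C.O (b ⊓ unitIdeal C.O) :=
    fun u hu v hv => ⟨h0 u (C.hOM hu) v hv.1, C.O.mul_mem hu hv.2⟩
  refine ⟨⟨⟨hmodb, ?_⟩, inf_le_right, x, hxb, w, hw, h2⟩, hex⟩
  -- the inverse
  let c : Submodule ℤ K :=
    { carrier := {y | y ∈ b' ∧ ∀ z ∈ b ⊓ unitIdeal C.O, z * y ∈ unitIdeal C.O}
      add_mem' := fun {u v} hu hv => ⟨b'.add_mem hu.1 hv.1, fun z hz => by
        rw [mul_add]; exact (unitIdeal C.O).add_mem (hu.2 z hz) (hv.2 z hz)⟩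
      zero_mem' := ⟨b'.zero_mem, fun z _ => by rw [mul_zero]; exact Submodule.zero_mem _⟩
      smul_mem' := fun k y hy => ⟨b'.smul_mem k hy.1, fun z hz => by
        rw [mul_smul_comm]; exact (unitIdeal C.O).smul_mem k (hy.2 z hz)⟩ }
  have hcmod : IsMod C.O c := by
    intro u hu v hv
    refine ⟨hb1 u (C.hOM hu) v hv.1, fun z hz => ?_⟩
    have : z * (u * v) = u * (z * v) := by ring
    rw [this]
    exact C.O.mul_mem hu (hv.2 z hz)
  refine ⟨c, hcmod, ?_⟩
  apply le_antisymm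
  · rw [Submodule.mul_le]
    intro y hy z hz
    exact hz.2 y hy
  · -- `1 = x + w` is in the product
    have hone : (1 : K) ∈ (b ⊓ unitIdeal C.O) * c := by
      rw [← h2]
      refine Submodule.add_mem _ ?_ ?_
      · have h1c : (1 : K) ∈ c := by
          refine ⟨?_, fun z hz => by rw [mul_one]; exact hz.2⟩
          have : b * b' ≤ b' := by
            rw [Submodule.mul_le]
            intro y hy z hz
            exact hb1 y (h1 hy) z hz
          apply this
          rw [hb2]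
          exact C.M.one_mem
        have := Submodule.mul_mem_mul hxb h1c
        rwa [mul_one] at this
      · -- `f = (b ⊓ O) * f * b'` and `f * b' ≤ c`
        have hfc : C.f * b' ≤ c := by
          rw [Submodule.mul_le]
          intro y hy z hz
          refine ⟨hb1 y (C.hOM (C.hfO hy)) z hz, fun t ht => ?_⟩
          have e1 : t * (y * z) = (t * z) * y := by ring
          rw [e1]
          apply C.hfO
          apply C.hf
          · have : b * b' ≤ unitIdeal C.M := le_of_eq hb2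
            exact this (Submodule.mul_mem_mul ht.1 hz)
          · exact hy
        have hfe : C.f = (b ⊓ unitIdeal C.O) * (C.f * b') := by
          calc C.f = unitIdeal C.M * C.f := C.hf.unit_mul.symm
            _ = b * b' * C.f := by rw [hb2]
            _ = C.ex (b ⊓ unitIdeal C.O) * b' * C.f := by rw [hex]
            _ = (b ⊓ unitIdeal C.O) * ((unitIdeal C.M * C.f) * b') := by
                unfold ex
                ring
            _ = _ := by rw [C.hf.unit_mul]
        have hw' : w ∈ (b ⊓ unitIdeal C.O) * (C.f * b') := by rw [← hfe]; exact hw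
        exact (Submodule.mul_le.2 (fun y hy z hz => Submodule.mul_mem_mul hy (hfc hz))) hw'
    intro y hy
    have := (hmodb.mul_left c) y hy 1 hone
    rwa [mul_one] at this

theorem ex_inf {b : Submodule ℤ K} (h0 : IsMod C.M b) (h1 : b ≤ unitIdeal C.M)
    (h : ∃ x ∈ b, ∃ w ∈ C.f, x + w = 1) : C.ex (b ⊓ unitIdeal C.O) = b := by
  obtain ⟨x, hx, w, hw, h2⟩ := h
  have hxO : x ∈ unitIdeal C.O := by
    have : x = 1 - w := by rw [← h2]; ring
    rw [this]
    exact (unitIdeal C.O).sub_mem C.O.one_mem (C.hfO hw)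
  have hxb : x ∈ b ⊓ unitIdeal C.O := ⟨hx, hxO⟩
  have hbf : b * C.f ≤ b ⊓ unitIdeal C.O := by
    rw [Submodule.mul_le]
    intro y hy z hz
    refine ⟨?_, C.hfO (C.hf y (h1 hy) z hz)⟩
    rw [mul_comm]
    exact h0 z (C.hOM (C.hfO hz)) y hy
  apply le_antisymm
  · unfold ex
    rw [Submodule.mul_le]
    intro y hy z hz
    rw [mul_comm]
    exact h0 z hz y hy.1
  · intro y hy
    have e : y = x * y + y * w := by
      rw [mul_comm x y, ← mul_add, h2, mul_one]
    rw [e]
    refine (C.ex _).add_mem (Submodule.mul_mem_mul hxb (h1 hy)) ?_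
    exact C.le_ex _ (hbf (Submodule.mul_mem_mul hy hw))

/-- related extensions of coprime ideals come from related ideals -/
theorem rel_of_ex {b c : Submodule ℤ K} (hb : CopIdeal C.O C.f b) (hc : CopIdeal C.O C.f c)
    (h : RelS C.σ₂ C.M C.f (C.ex b) (C.ex c)) : RelS C.σ₂ C.O C.m b c := by
  obtain ⟨l, hl, h1, h2⟩ := h
  have hk := C.key hb.2.1 (by rw [← h1]; exact C.ex_le hc.2.1) h2
  have hlb : CopIdeal C.O C.f (scale l b) := by
    refine ⟨hb.1.scale (ne_zero_of_pos hl), C.key_le hb.2.1 hk, ?_⟩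
    obtain ⟨x, hx, w, hw, hxw⟩ := hb.2.2
    refine ⟨l * x, smul_mem_scale hx, w - (l - 1) * x, C.f.sub_mem hw (hk x (C.le_ex b hx)), ?_⟩
    linear_combination hxw
  have e : scale l b = c := by
    rw [← C.cop_inf hlb, ← C.cop_inf hc, C.ex_scale, h1]
  rw [← e]
  exact C.key_rel hl hk

end Ctx

end H33.MS
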