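import Pool.Agent.T6.H33.MS.Units

namespace H33.MS

variable {K : Type} [Field K]

/-- the zeta functions of `(O, m)` in terms of those of `(M, f)` -/
theorem isZeta_Z (C : Ctx K) {σ₁ : K →+* ℝ} {H : Type} [Field H] [Algebra K H]
    (D : Data C σ₁ H)
    (hOrel : ∀ a b, InMonoid C.O C.m a → InMonoid C.O C.m b →
      (Rel C.σ₂ C.O C.m a b ↔ RelS C.σ₂ C.O C.m a b))
    (hMrel : ∀ a b, InMonoid C.M C.f a → InMonoid C.M C.f b →
      (Rel C.σ₂ C.M C.f a b ↔ RelS C.σ₂ C.M C.f a b))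
    (hidx : ∀ b, Int' C.O b → idx (unitIdeal C.O) b = idx (unitIdeal C.M) (C.ex b))
    (hZ : IsZeta C.σ₂ C.M C.f D.G) : IsZeta C.σ₂ C.O C.m D.Z := by
  intro a ha
  refine ⟨fun b hb h => D.Z_congr ((hOrel a b ha hb).1 h), D.Z_diff a, ?_⟩
  intro s hs
  have h1 := D.R.hasSum_P D.hfg a (fun b => ((idx (unitIdeal C.M) b : ℕ) : ℂ) ^ (-s))
    (fun q => D.G q s) (by
      intro q hq
      have h2 := (hZ q (inMonoid_of_le hq.1 hq.2)).2.2 s hs
      let e : {t // Int' C.M t ∧ RelS C.σ₂ C.M C.f q t} ≃ ClassIdeals C.σ₂ C.M C.f q :=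
        Equiv.subtypeEquivRight (fun t => by
          constructor
          · rintro ⟨ht, hr⟩
            exact ⟨ht.1, ht.2, (hMrel q t (inMonoid_of_le hq.1 hq.2)
              (inMonoid_of_le ht.1 ht.2)).2 hr⟩
          · rintro ⟨ht1, ht2, hr⟩
            exact ⟨⟨ht1, ht2⟩, (hMrel q t (inMonoid_of_le hq.1 hq.2)
              (inMonoid_of_le ht1 ht2)).1 hr⟩)
      rw [← e.hasSum_iff] at h2
      exact h2)
  let e : {b // Int' C.O b ∧ RelS C.σ₂ C.O C.m a b} ≃ ClassIdeals C.σ₂ C.O C.m a :=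
    Equiv.subtypeEquivRight (fun t => by
      constructor
      · rintro ⟨ht, hr⟩
        exact ⟨ht.1, ht.2, (hOrel a t ha (inMonoid_of_le ht.1 ht.2)).2 hr⟩
      · rintro ⟨ht1, ht2, hr⟩
        exact ⟨⟨ht1, ht2⟩, (hOrel a t ha (inMonoid_of_le ht1 ht2)).1 hr⟩)
  rw [← e.hasSum_iff]
  have h3 : (fun b : {b // Int' C.O b ∧ RelS C.σ₂ C.O C.m a b} =>
      ((idx (unitIdeal C.M) (C.ex b.1) : ℕ) : ℂ) ^ (-s)) =
      (fun b : ClassIdeals C.σ₂ C.O C.m a =>
        ((idx (unitIdeal C.O) b.1 : ℕ) : ℂ) ^ (-s)) ∘ e := by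
    funext b
    change _ = ((idx (unitIdeal C.O) b.1 : ℕ) : ℂ) ^ (-s)
    rw [hidx b.1 b.2.1]
  rw [← h3]
  exact h1

/-- MAIN THEOREM: the monoid Stark conjecture for `(O_K, (m : O_K))` implies the one for
`(O, m)`. -/
theorem monoidStark_descent [NumberField K] (σ₁ σ₂ : K →+* ℝ) (O : Subalgebra ℤ K)
    (m : Submodule ℤ K) (hO : IsOrder O) (hm : IsModulus O m)
    (h : MonoidStark σ₁ σ₂ (integralClosure ℤ K) (colon m)) : MonoidStark σ₁ σ₂ O m := by
  classical
  obtain ⟨C, rfl, rfl, hM, rfl, hf⟩ := exists_ctx σ₂ hO hm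
  have h1m : (1 : K) ∉ C.m := one_notMem hm
  have h1f : (1 : K) ∉ C.f := fun h => h1m (C.hfm h)
  have hN : 0 < C.N := lt_of_lt_of_le two_pos C.hN
  have hfg : ∀ q : Submodule ℤ K, q ≤ unitIdeal C.M → q.FG := by
    intro q hq
    rw [hM] at hq
    exact fg_of_le hq
  have hfgM : (unitIdeal C.M).FG := hfg _ le_rfl
  have hfgO : (unitIdeal C.O).FG := hfg _ C.hOM
  have hOrel : ∀ a b, InMonoid C.O C.m a → InMonoid C.O C.m b →
      (Rel C.σ₂ C.O C.m a b ↔ RelS C.σ₂ C.O C.m a b) := fun a b ha hb =>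
    rel_iff hfgO C.hm hN (C.hfm C.hNf) h1m ha hb
  have hMrel : ∀ a b, InMonoid C.M C.f a → InMonoid C.M C.f b →
      (Rel C.σ₂ C.M C.f a b ↔ RelS C.σ₂ C.M C.f a b) := fun a b ha hb =>
    rel_iff hfgM C.hf hN C.hNf h1f ha hb
  have hcc : colon C.f = C.f := by rw [hf, colon_colon]
  rw [← hf, ← hM] at h
  obtain ⟨H, iF, iA, iFD, iG, Art, ι, G, ε, hcomm, hι, ⟨hA1, hA2, hA3, hA4⟩, hZ, hSU⟩ := h
  rw [hcc] at hA1 hA2 hA3 hA4
  obtain ⟨R⟩ := exists_reps C (finite_classes C hM hfg)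
  have hin : ∀ {a}, Int' C.M a → InMonoid C.M C.f a := fun h => inMonoid_of_le h.1 h.2
  have hunit : InMonoid C.M C.f (unitIdeal C.M) := inMonoid_of_le isInvertible_unit le_rfl
  let D : Data C σ₁ H :=
    { hfg := hfg
      R := R
      Art := Art
      ι := ι
      G := G
      ε := ε
      hcomm := hcomm
      hι := hι
      hA1 := hA1
      hA2 := hA2
      hA3 := fun b hb => by
        rw [hA3 b hb, hMrel _ _ hunit (inMonoid_of_le hb.1 hb.2.1)]
      hG1 := fun a b ha hb hr => (hZ a (hin ha)).1 b (hin hb) ((hMrel a b (hin ha) (hin hb)).2 hr)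
      hG2 := fun a ha => (hZ a (hin ha)).2.1
      hε0 := fun a b ha hb hr =>
        (hSU a (hin ha)).1 b (hin hb) ((hMrel a b (hin ha) (hin hb)).2 hr)
      hε1 := fun a ha => (hSU a (hin ha)).2.1
      hi := fun a ha => (hSU a (hin ha)).2.2.1
      hii := fun a ha b hb => (hSU a (hin ha)).2.2.2.1 b (by rw [hcc]; exact hb)
      hiii := fun a ha => (hSU a (hin ha)).2.2.2.2.1
      hiv := fun a ha => (hSU a (hin ha)).2.2.2.2.2 }
  have hGal := C.galois_LL D.hA1 D.hA2 D.hA3 hcomm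
  let L := C.LL D.hA1 D.hA2 D.hA3
  let εL : Submodule ℤ K → L := fun a => if h : D.E a ∈ L then ⟨D.E a, h⟩ else 1
  have hεL : ∀ a, InMonoid C.O C.m a → ((εL a : L) : H) = D.E a := by
    intro a ha
    have hmem : D.E a ∈ L := D.E_mem ha
    change ((if h : D.E a ∈ L then (⟨D.E a, h⟩ : L) else 1 : L) : H) = D.E a
    rw [dif_pos hmem]
  have hunitO : InMonoid C.O C.m (unitIdeal C.O) := inMonoid_of_le isInvertible_unit le_rfl
  refine ⟨L, inferInstance, inferInstance, inferInstance, hGal, C.art D.hA1 D.hA2 D.hA3,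
    D.ι.comp (algebraMap L H), D.Z, εL, C.art_comm D.hA1 D.hA2 D.hA3 hcomm, ?_, ?_, ?_, ?_⟩
  · intro x
    exact hι x
  · refine ⟨?_, ?_, ?_, ?_⟩
    · rw [← hf]
      intro b c hb hc
      exact C.art_mul D.hA1 D.hA2 D.hA3 hb hc
    · rw [← hf]
      intro g
      exact C.art_surj D.hA1 D.hA2 D.hA3 g
    · rw [← hf]
      intro b hb
      rw [C.art_one D.hA1 D.hA2 D.hA3 hb, hOrel _ _ hunitO (inMonoid_of_le hb.1 hb.2.1)]
    · rw [← hf]
      intro P hP h x
      exact C.art_frob D.hA1 D.hA2 D.hA3 hM hA4 P hP h x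
  · exact isZeta_Z C D hOrel hMrel (fun b hb => idx_ex C hfgO hfgM hb) hZ
  · intro a ha
    have hcoe : (algebraMap L H) (εL a) = D.E a := hεL a ha
    refine ⟨?_, ?_, ?_, ?_, ?_, ?_⟩
    · intro b hb hr
      apply Subtype.ext
      rw [hεL a ha, hεL b hb]
      exact D.E_congr ((hOrel a b ha hb).1 hr)
    · have hinj : Function.Injective (algebraMap L H) := (algebraMap L H).injective
      constructor
      · have h1 : IsIntegral ℤ ((algebraMap L H).toIntAlgHom (εL a)) := by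
          change IsIntegral ℤ ((algebraMap L H) (εL a))
          rw [hcoe]
          exact (D.E_int a).1
        exact (isIntegral_algHom_iff _ hinj).1 h1
      · have h1 : IsIntegral ℤ ((algebraMap L H).toIntAlgHom (εL a)⁻¹) := by
          change IsIntegral ℤ ((algebraMap L H) (εL a)⁻¹)
          rw [map_inv₀, hcoe]
          exact (D.E_int a).2
        exact (isIntegral_algHom_iff _ hinj).1 h1
    · intro α _ hα1 hα
      rw [RingHom.comp_apply, hcoe]
      exact D.E_exp ha hα1 hα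
    · rw [← hf]
      intro b hb
      apply Subtype.ext
      rw [C.art_apply, hεL a ha, D.art_E ha hb,
        hεL _ (ha.mul C.hm (inMonoid_of_le hb.1 hb.2.1))]
    · intro τ hτ
      let _ : Algebra L ℂ := τ.toAlgebra
      let τ' : H →ₐ[L] ℂ := IsAlgClosed.lift
      have h1 : ∀ x : L, τ' (algebraMap L H x) = τ x := fun x => τ'.commutes x
      rw [← h1, hcoe]
      refine D.E_tau a (τ' : H →+* ℂ) ?_
      intro x
      rw [← hτ x, ← h1]
      rfl
    · intro z hz s t hs ht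
      rw [RingHom.comp_apply, hcoe] at hz
      exact D.E_sqrt a z hz s t hs ht

end H33.MS
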