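import Pool.Agent.T6.H33.MS.Defs

namespace H33.MS

/-- lying over for the rings of integers of an extension of fields -/
theorem exists_above {K : Type} [Field K] {L H : Type} [Field L] [Field H] [Algebra K L]
    [Algebra K H] (j : L →ₐ[K] H) (P : Ideal (integralClosure ℤ L)) (hP : P.IsPrime) :
    ∃ Q : Ideal (integralClosure ℤ H), Q.IsPrime ∧ below (K := K) Q = below (K := K) P ∧
      ∀ (x : integralClosure ℤ L) (y : integralClosure ℤ H), (y : H) = j (x : L) →
        (y ∈ Q → x ∈ P) := by
  let φ : integralClosure ℤ L →ₐ[ℤ] integralClosure ℤ H :=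
    ((j : L →+* H).toIntAlgHom).mapIntegralClosure
  have hφ : ∀ x, ((φ x : integralClosure ℤ H) : H) = j (x : L) := fun x => rfl
  let _ : Algebra (integralClosure ℤ L) (integralClosure ℤ H) := φ.toRingHom.toAlgebra
  have halg : ∀ x, algebraMap (integralClosure ℤ L) (integralClosure ℤ H) x = φ x := fun x => rfl
  have hinj : Function.Injective (algebraMap (integralClosure ℤ L) (integralClosure ℤ H)) := by
    intro x y hxy
    apply Subtype.ext
    have h0 : Function.Injective (j : L → H) := j.injective
    apply h0
    rw [← hφ, ← hφ, ← halg, ← halg, hxy]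
  have : Algebra.IsIntegral (integralClosure ℤ L) (integralClosure ℤ H) := by
    constructor
    intro y
    have h : IsIntegral ℤ y := by
      have : Algebra.IsIntegral ℤ (integralClosure ℤ H) := inferInstance
      exact this.isIntegral y
    exact h.tower_top
  obtain ⟨Q, _, hQ, hQP⟩ := Ideal.exists_ideal_over_prime_of_isIntegral P
    (⊥ : Ideal (integralClosure ℤ H)) (by
      rw [Ideal.comap_bot_of_injective _ hinj]
      exact bot_le)
  have hmem : ∀ (x : integralClosure ℤ L) (y : integralClosure ℤ H), (y : H) = j (x : L) →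
        (y ∈ Q ↔ x ∈ P) := by
    intro x y h
    have : y = algebraMap (integralClosure ℤ L) (integralClosure ℤ H) x := by
      apply Subtype.ext
      rw [halg, hφ, h]
    rw [this, ← hQP]
    rfl
  refine ⟨Q, hQ, ?_, fun x y h => (hmem x y h).1⟩
  ext x
  constructor
  · rintro ⟨y, hy, h⟩
    have hint : IsIntegral ℤ (algebraMap K L x) := by
      have h1 : IsIntegral ℤ ((j : L →+* H).toIntAlgHom (algebraMap K L x)) := by
        have h2 : (j : L →+* H).toIntAlgHom (algebraMap K L x) = (y : H) := by
          rw [h]
          exact j.commutes x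
        rw [h2]
        exact y.2
      exact (isIntegral_algHom_iff (j : L →+* H).toIntAlgHom j.injective).1 h1
    refine ⟨⟨algebraMap K L x, hint⟩, ?_, rfl⟩
    rw [← hmem _ y (by rw [h]; exact (j.commutes x).symm)]
    exact hy
  · rintro ⟨y, hy, h⟩
    refine ⟨φ y, ?_, ?_⟩
    · rw [hmem y (φ y) rfl]
      exact hy
    · rw [hφ, h]
      exact j.commutes x

end H33.MS
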