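import Pool.Agent.T6.H33.MS.Grp
import Pool.Agent.T6.H33.MS.Frob

set_option linter.unusedSectionVars false

namespace H33.MS

variable {K : Type} [Field K]

namespace Ctx

variable (C : Ctx K)

variable {H : Type} [Field H] [Algebra K H] [FiniteDimensional K H] [IsGalois K H]
  {Art : Submodule ℤ K → (H ≃ₐ[K] H)}
  (hA1 : ∀ b c, CopIdeal C.M C.f b → CopIdeal C.M C.f c → Art (b * c) = Art b * Art c)
  (hA2 : ∀ g, ∃ b, CopIdeal C.M C.f b ∧ Art b = g)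
  (hA3 : ∀ b, CopIdeal C.M C.f b → (Art b = 1 ↔ RelS C.σ₂ C.M C.f (unitIdeal C.M) b))

/-- The ray class field of `(O, m)` in the ray class field of `(M, f)`. -/
def LL : IntermediateField K H := IntermediateField.fixedField (C.NN hA1 hA2 hA3)

theorem normal_NN (hcomm : ∀ g h : H ≃ₐ[K] H, g * h = h * g) :
    (C.NN hA1 hA2 hA3).Normal := by
  constructor
  intro n hn g
  rw [hcomm g n, mul_inv_cancel_right]
  exact hn

theorem galois_LL (hcomm : ∀ g h : H ≃ₐ[K] H, g * h = h * g) :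
    IsGalois K (C.LL hA1 hA2 hA3) := by
  have := C.normal_NN hA1 hA2 hA3 hcomm
  unfold LL
  infer_instance

/-- The Artin map of `(O, m)`. -/
noncomputable def art [IsGalois K (C.LL hA1 hA2 hA3)] (b : Submodule ℤ K) :
    (C.LL hA1 hA2 hA3) ≃ₐ[K] (C.LL hA1 hA2 hA3) :=
  AlgEquiv.restrictNormalHom (C.LL hA1 hA2 hA3) (Art (C.ex b))

theorem art_apply [IsGalois K (C.LL hA1 hA2 hA3)] (b : Submodule ℤ K)
    (x : C.LL hA1 hA2 hA3) : ((C.art hA1 hA2 hA3 b x : C.LL hA1 hA2 hA3) : H) =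
      Art (C.ex b) (x : H) := AlgEquiv.restrictNormalHom_apply _ _ _

theorem art_mul [IsGalois K (C.LL hA1 hA2 hA3)] {b c : Submodule ℤ K}
    (hb : CopIdeal C.O C.f b) (hc : CopIdeal C.O C.f c) :
    C.art hA1 hA2 hA3 (b * c) = C.art hA1 hA2 hA3 b * C.art hA1 hA2 hA3 c := by
  unfold art
  rw [C.ex_mul, hA1 _ _ (C.cop_ex hb) (C.cop_ex hc), map_mul]

theorem art_surj [IsGalois K (C.LL hA1 hA2 hA3)]
    (g : (C.LL hA1 hA2 hA3) ≃ₐ[K] (C.LL hA1 hA2 hA3)) :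
    ∃ b, CopIdeal C.O C.f b ∧ C.art hA1 hA2 hA3 b = g := by
  obtain ⟨g', hg'⟩ := AlgEquiv.restrictNormalHom_surjective (F := K) (K₁ := C.LL hA1 hA2 hA3) H g
  obtain ⟨b, hb, hbg⟩ := hA2 g'
  obtain ⟨h1, h2⟩ := C.cop_contr hb
  refine ⟨b ⊓ unitIdeal C.O, h1, ?_⟩
  unfold art
  rw [h2, hbg, hg']

theorem art_one [IsGalois K (C.LL hA1 hA2 hA3)] {b : Submodule ℤ K}
    (hb : CopIdeal C.O C.f b) :
    C.art hA1 hA2 hA3 b = 1 ↔ RelS C.σ₂ C.O C.m (unitIdeal C.O) b := by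
  rw [← C.mem_NN hA1 hA2 hA3 hb]
  unfold art
  rw [← MonoidHom.mem_ker, IntermediateField.restrictNormalHom_ker]
  have : (C.LL hA1 hA2 hA3).fixingSubgroup = C.NN hA1 hA2 hA3 :=
    IntermediateField.fixingSubgroup_fixedField _
  rw [this]

theorem art_comm [IsGalois K (C.LL hA1 hA2 hA3)] (hcomm : ∀ g h : H ≃ₐ[K] H, g * h = h * g)
    (g h : (C.LL hA1 hA2 hA3) ≃ₐ[K] (C.LL hA1 hA2 hA3)) : g * h = h * g := by
  obtain ⟨g', rfl⟩ := AlgEquiv.restrictNormalHom_surjective (F := K) (K₁ := C.LL hA1 hA2 hA3) H g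
  obtain ⟨h', rfl⟩ := AlgEquiv.restrictNormalHom_surjective (F := K) (K₁ := C.LL hA1 hA2 hA3) H h
  rw [← map_mul, ← map_mul, hcomm]

theorem art_frob [IsGalois K (C.LL hA1 hA2 hA3)] (hM : C.M = integralClosure ℤ K)
    (hA4 : ∀ P : Ideal (integralClosure ℤ H), P.IsPrime →
      (∃ x ∈ below (K := K) P, ∃ w ∈ C.f, x + w = 1) → ∀ x : integralClosure ℤ H, ∃ y ∈ P,
        (y : H) = Art (below (K := K) P ⊓ unitIdeal C.M) (x : H)
          - (x : H) ^ idx (unitIdeal (integralClosure ℤ K)) (below (K := K) P))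
    (P : Ideal (integralClosure ℤ (C.LL hA1 hA2 hA3))) (hP : P.IsPrime)
    (h : ∃ x ∈ below (K := K) P, ∃ w ∈ C.f, x + w = 1)
    (x : integralClosure ℤ (C.LL hA1 hA2 hA3)) :
    ∃ y ∈ P, (y : C.LL hA1 hA2 hA3) =
      C.art hA1 hA2 hA3 (below (K := K) P ⊓ unitIdeal C.O) (x : C.LL hA1 hA2 hA3)
        - (x : C.LL hA1 hA2 hA3) ^ idx (unitIdeal (integralClosure ℤ K)) (below (K := K) P) := by
  obtain ⟨Q, hQ, hQb, hQm⟩ := exists_above (K := K) (C.LL hA1 hA2 hA3).val P hP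
  have hpM : below (K := K) P ≤ unitIdeal C.M := by
    rintro t ⟨y, _, hy⟩
    have h1 : IsIntegral ℤ (algebraMap K (C.LL hA1 hA2 hA3) t) := by
      rw [← hy]
      exact y.2
    have h2 : IsIntegral ℤ t :=
      (isIntegral_algHom_iff (algebraMap K (C.LL hA1 hA2 hA3)).toIntAlgHom
        (algebraMap K (C.LL hA1 hA2 hA3)).injective).1 h1
    change t ∈ C.M
    rw [hM]
    exact h2
  have hpmod : IsMod C.M (below (K := K) P) := by
    rintro u hu t ⟨y, hyP, hy⟩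
    rw [hM] at hu
    have h1 : IsIntegral ℤ (algebraMap K (C.LL hA1 hA2 hA3) u) :=
      IsIntegral.map (algebraMap K (C.LL hA1 hA2 hA3)).toIntAlgHom hu
    refine ⟨⟨_, h1⟩ * y, P.mul_mem_left _ hyP, ?_⟩
    rw [map_mul, ← hy]
    rfl
  have hex : C.ex (below (K := K) P ⊓ unitIdeal C.O) = below (K := K) P :=
    C.ex_inf hpmod hpM h
  obtain ⟨y, hyQ, hy⟩ := hA4 Q hQ (by rw [hQb]; exact h)
    ⟨(x : C.LL hA1 hA2 hA3).1,
      IsIntegral.map ((C.LL hA1 hA2 hA3).val : (C.LL hA1 hA2 hA3) →+* H).toIntAlgHom x.2⟩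
  rw [hQb, inf_eq_left.2 hpM] at hy
  have hint : IsIntegral ℤ (C.art hA1 hA2 hA3 (below (K := K) P ⊓ unitIdeal C.O)
      (x : C.LL hA1 hA2 hA3) - (x : C.LL hA1 hA2 hA3) ^
        idx (unitIdeal (integralClosure ℤ K)) (below (K := K) P)) := by
    refine IsIntegral.sub ?_ (x.2.pow _)
    exact IsIntegral.map ((C.art hA1 hA2 hA3 (below (K := K) P ⊓ unitIdeal C.O) :
      (C.LL hA1 hA2 hA3) →+* (C.LL hA1 hA2 hA3)).toIntAlgHom) x.2
  refine ⟨⟨_, hint⟩, hQm _ y ?_ hyQ, rfl⟩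
  rw [hy]
  change _ = (((C.art hA1 hA2 hA3 (below (K := K) P ⊓ unitIdeal C.O)
      (x : C.LL hA1 hA2 hA3) - (x : C.LL hA1 hA2 hA3) ^
        idx (unitIdeal (integralClosure ℤ K)) (below (K := K) P) : C.LL hA1 hA2 hA3)) : H)
  push_cast
  rw [C.art_apply, hex]

end Ctx

end H33.MS
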