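import Pool.Agent.T6.H33.MS.Sum

namespace H33.MS

variable {K : Type} [Field K]

namespace Ctx

variable (C : Ctx K)

theorem cop_unit (O : Subalgebra ℤ K) (f : Submodule ℤ K) : CopIdeal O f (unitIdeal O) :=
  ⟨isInvertible_unit, le_rfl, 1, O.one_mem, 0, f.zero_mem, add_zero 1⟩

/-- `RelS O b` and `RelS O c` give `RelS O (b * c)` -/
theorem rel_unit_mul {b c : Submodule ℤ K} (hc : Int' C.O c)
    (h : RelS C.σ₂ C.O C.m (unitIdeal C.O) b) (h' : RelS C.σ₂ C.O C.m (unitIdeal C.O) c) :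
    RelS C.σ₂ C.O C.m (unitIdeal C.O) (b * c) := by
  have h1 := h.mul C.hm (inMonoid_of_le hc.1 hc.2)
  rw [hc.1.1.unit_mul] at h1
  exact h'.trans C.hm h1

theorem rel_unit_of_mul {b c : Submodule ℤ K} (hc : Int' C.O c)
    (h : RelS C.σ₂ C.O C.m (unitIdeal C.O) b)
    (h' : RelS C.σ₂ C.O C.m (unitIdeal C.O) (b * c)) :
    RelS C.σ₂ C.O C.m (unitIdeal C.O) c := by
  have h1 := h.mul C.hm (inMonoid_of_le hc.1 hc.2)
  rw [hc.1.1.unit_mul] at h1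
  exact h'.trans C.hm h1.symm

variable {H : Type} [Field H] [Algebra K H] {Art : Submodule ℤ K → (H ≃ₐ[K] H)}
  (hA1 : ∀ b c, CopIdeal C.M C.f b → CopIdeal C.M C.f c → Art (b * c) = Art b * Art c)
  (hA2 : ∀ g, ∃ b, CopIdeal C.M C.f b ∧ Art b = g)
  (hA3 : ∀ b, CopIdeal C.M C.f b → (Art b = 1 ↔ RelS C.σ₂ C.M C.f (unitIdeal C.M) b))

include hA1 hA2 hA3

theorem exists_inv {c : Submodule ℤ K} (hc : CopIdeal C.O C.f c) :
    ∃ d, CopIdeal C.O C.f d ∧ Art (C.ex d) = (Art (C.ex c))⁻¹ ∧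
      RelS C.σ₂ C.O C.m (unitIdeal C.O) (c * d) := by
  obtain ⟨b, hb, hbA⟩ := hA2 (Art (C.ex c))⁻¹
  obtain ⟨hd, hdb⟩ := C.cop_contr hb
  refine ⟨b ⊓ unitIdeal C.O, hd, by rw [hdb, hbA], ?_⟩
  have hcd := cop_mul C.isMod_f hc hd
  apply C.rel_of_ex (cop_unit _ _) hcd
  rw [C.ex_unit]
  rw [← hA3 _ (C.cop_ex hcd), C.ex_mul, hA1 _ _ (C.cop_ex hc) (C.cop_ex hd), hdb, hbA,
    mul_inv_cancel]

/-- The subgroup of the Artin automorphisms of the trivial class of `O`. -/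
def NN : Subgroup (H ≃ₐ[K] H) where
  carrier := {g | ∃ b, CopIdeal C.O C.f b ∧ RelS C.σ₂ C.O C.m (unitIdeal C.O) b ∧
    Art (C.ex b) = g}
  mul_mem' := by
    rintro g h ⟨b, hb, hb1, rfl⟩ ⟨c, hc, hc1, rfl⟩
    refine ⟨b * c, cop_mul C.isMod_f hb hc, C.rel_unit_mul ⟨hc.1, hc.2.1⟩ hb1 hc1, ?_⟩
    rw [C.ex_mul, hA1 _ _ (C.cop_ex hb) (C.cop_ex hc)]
  one_mem' := by
    refine ⟨unitIdeal C.O, cop_unit _ _, RelS.refl _, ?_⟩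
    rw [C.ex_unit, hA3 _ (cop_unit _ _)]
    exact RelS.refl _
  inv_mem' := by
    rintro g ⟨b, hb, hb1, rfl⟩
    obtain ⟨d, hd, hd1, hd2⟩ := C.exists_inv hA1 hA2 hA3 hb
    exact ⟨d, hd, C.rel_unit_of_mul ⟨hd.1, hd.2.1⟩ hb1 hd2, hd1⟩

theorem mem_NN {b : Submodule ℤ K} (hb : CopIdeal C.O C.f b) :
    Art (C.ex b) ∈ C.NN hA1 hA2 hA3 ↔ RelS C.σ₂ C.O C.m (unitIdeal C.O) b := by
  constructor
  · rintro ⟨c, hc, hc1, hc2⟩
    obtain ⟨d, hd, hd1, hd2⟩ := C.exists_inv hA1 hA2 hA3 hb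
    -- `Art (ex (c * d)) = 1`
    have hcd := cop_mul C.isMod_f hc hd
    have h1 : RelS C.σ₂ C.O C.m (unitIdeal C.O) (c * d) := by
      apply C.rel_of_ex (cop_unit _ _) hcd
      rw [C.ex_unit, ← hA3 _ (C.cop_ex hcd), C.ex_mul, hA1 _ _ (C.cop_ex hc) (C.cop_ex hd), hd1,
        hc2, mul_inv_cancel]
    have h2 : RelS C.σ₂ C.O C.m (unitIdeal C.O) d := C.rel_unit_of_mul ⟨hd.1, hd.2.1⟩ hc1 h1
    rw [mul_comm] at hd2
    exact C.rel_unit_of_mul ⟨hb.1, hb.2.1⟩ h2 hd2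
  · intro h
    exact ⟨b, hb, h, rfl⟩

end Ctx

end H33.MS
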