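import Pool.Agent.T6.H33.MS.Sets

namespace H33.MS

variable {K : Type} [Field K]

section max

variable (O : Subalgebra ℤ K)

/-- an ideal of the ring `O` as a subgroup of `K` -/
def toK (p : Ideal O) : Submodule ℤ K where
  carrier := {x | ∃ h : x ∈ O, (⟨x, h⟩ : O) ∈ p}
  add_mem' := by
    rintro x y ⟨hx, hx'⟩ ⟨hy, hy'⟩
    exact ⟨O.add_mem hx hy, p.add_mem hx' hy'⟩
  zero_mem' := ⟨O.zero_mem, p.zero_mem⟩
  smul_mem' := by
    rintro c x ⟨hx, hx'⟩
    refine ⟨O.smul_mem hx c, ?_⟩
    have h : (⟨c • x, O.smul_mem hx c⟩ : O) = (c : O) * ⟨x, hx⟩ := by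
      apply Subtype.ext
      simp
    rw [h]
    exact p.mul_mem_left _ hx'

variable {O}

theorem mem_toK {p : Ideal O} {x : K} : x ∈ toK O p ↔ ∃ h : x ∈ O, (⟨x, h⟩ : O) ∈ p := Iff.rfl

theorem toK_le (p : Ideal O) : toK O p ≤ unitIdeal O := by
  rintro x ⟨h, _⟩
  exact h

theorem finite_ideals (hfg : (unitIdeal O).FG) {N : ℕ} (hN : 0 < N) :
    {p : Ideal O | (N : O) ∈ p}.Finite := by
  refine Set.Finite.of_injOn (f := toK O) (t := {b | scale (N : K) (unitIdeal O) ≤ b ∧
    b ≤ unitIdeal O}) ?_ ?_ (Reps.finite_between _ hfg hN)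
  · intro p hp
    refine ⟨?_, toK_le p⟩
    intro x hx
    obtain ⟨y, hy, rfl⟩ := mem_scale.1 hx
    have h : (N : K) * y ∈ O := O.mul_mem (natCast_mem O N) hy
    refine ⟨h, ?_⟩
    have e : (⟨(N : K) * y, h⟩ : O) = ⟨y, hy⟩ * (N : O) := by
      apply Subtype.ext
      simp [mul_comm]
    rw [e]
    exact p.mul_mem_left _ hp
  · intro p _ q _ h
    ext x
    have h1 : x.1 ∈ toK O p ↔ x ∈ p := ⟨fun ⟨_, h⟩ => h, fun h => ⟨x.2, h⟩⟩
    have h2 : x.1 ∈ toK O q ↔ x ∈ q := ⟨fun ⟨_, h⟩ => h, fun h => ⟨x.2, h⟩⟩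
    rw [← h1, ← h2]
    rw [show toK O p = toK O q from h]

/-- avoiding finitely many maximal ideals -/
theorem avoid {a b : Submodule ℤ K} (ha : IsMod O a) (hab : a * b = unitIdeal O)
    (T : Finset (Ideal O)) (hT : ∀ p ∈ T, p.IsMaximal) :
    ∃ y ∈ a, ∀ p ∈ T, ∃ z ∈ b, y * z ∉ toK O p := by
  classical
  induction T using Finset.induction_on with
  | empty => exact ⟨0, a.zero_mem, fun p hp => absurd hp (Finset.notMem_empty p)⟩
  | insert p T hpT ih =>
    obtain ⟨y, hy, hyT⟩ := ih (fun q hq => hT q (Finset.mem_insert_of_mem hq))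
    have hpm : p.IsMaximal := hT p (Finset.mem_insert_self p T)
    by_cases hgood : ∃ z ∈ b, y * z ∉ toK O p
    · refine ⟨y, hy, fun q hq => ?_⟩
      rcases Finset.mem_insert.1 hq with rfl | hq
      · exact hgood
      · exact hyT q hq
    · push Not at hgood
      -- an element of `a` which is good at `p`
      have h1 : ∃ u ∈ a, ∃ v ∈ b, u * v ∉ toK O p := by
        by_contra hcon
        push Not at hcon
        have hle : a * b ≤ toK O p := Submodule.mul_le.2 hcon
        have h1 : (1 : K) ∈ toK O p := hle (by rw [hab]; exact O.one_mem)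
        obtain ⟨_, h1⟩ := h1
        exact hpm.ne_top ((Ideal.eq_top_iff_one p).2 h1)
      obtain ⟨u, hu, v, hv, huv⟩ := h1
      -- an element of the product of the others outside `p`
      have h2 : ∃ e : O, e ∉ p ∧ ∀ q ∈ T, e ∈ q := by
        by_contra hcon
        push Not at hcon
        have hle : ∏ q ∈ T, q ≤ p := by
          intro e he
          by_contra hep
          obtain ⟨q, hq, heq⟩ := hcon e hep
          exact heq ((Ideal.prod_le_inf.trans (Finset.inf_le hq)) he)
        obtain ⟨q, hq, hqp⟩ := (hpm.isPrime.prod_le).1 hle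
        have hqm : q.IsMaximal := hT q (Finset.mem_insert_of_mem hq)
        have : q = p := hqm.eq_of_le hpm.ne_top hqp
        rw [this] at hq
        exact hpT hq
      obtain ⟨e, hep, heT⟩ := h2
      refine ⟨y + (e : K) * u, a.add_mem hy (ha _ e.2 _ hu), fun q hq => ?_⟩
      have hmem : ∀ {s t : K}, s ∈ a → t ∈ b → s * t ∈ O := by
        intro s t hs ht
        have : s * t ∈ unitIdeal O := by
          rw [← hab]
          exact Submodule.mul_mem_mul hs ht
        exact this
      rcases Finset.mem_insert.1 hq with rfl | hqT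
      · refine ⟨v, hv, fun hcon => ?_⟩
        have hy' := hgood v hv
        have h3 : (e : K) * (u * v) ∈ toK O q := by
          have := (toK O q).sub_mem hcon hy'
          have e1 : (y + (e : K) * u) * v - y * v = (e : K) * (u * v) := by ring
          rwa [e1] at this
        obtain ⟨_, h4⟩ := h3
        have h5 : e * (⟨u * v, hmem hu hv⟩ : O) ∈ q := h4
        rcases hpm.isPrime.mem_or_mem h5 with h6 | h6
        · exact hep h6
        · exact huv ⟨_, h6⟩
      · obtain ⟨z, hz, hyz⟩ := hyT q hqT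
        refine ⟨z, hz, fun hcon => hyz ?_⟩
        have h3 : (e : K) * (u * z) ∈ toK O q := by
          refine ⟨O.mul_mem e.2 (hmem hu hz), ?_⟩
          have : (⟨(e : K) * (u * z), O.mul_mem e.2 (hmem hu hz)⟩ : O) =
              ⟨u * z, hmem hu hz⟩ * e := by
            apply Subtype.ext
            simp [mul_comm]
          rw [this]
          exact q.mul_mem_left _ (heT q hqT)
        have := (toK O q).sub_mem hcon h3
        have e1 : (y + (e : K) * u) * z - (e : K) * (u * z) = y * z := by ring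
        rwa [e1] at this

/-- local generators: for an invertible ideal `a` with inverse `b` there are `y` in `a` and `z` in
`b` with `yz` congruent to `1` modulo `m` -/
theorem exists_local_gen (hfg : (unitIdeal O).FG) {m : Submodule ℤ K} (hm : IsMod O m)
    {N : ℕ} (hN : 0 < N) (hNm : (N : K) ∈ m) {a b : Submodule ℤ K} (ha : IsMod O a)
    (hb : IsMod O b) (hab : a * b = unitIdeal O) :
    ∃ y ∈ a, ∃ z ∈ b, ∃ w ∈ m, y * z + w = 1 := by
  classical
  have hfin : {p : Ideal O | p.IsMaximal ∧ (N : O) ∈ p}.Finite :=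
    (finite_ideals hfg hN).subset (fun p hp => hp.2)
  obtain ⟨y, hy, hT⟩ := avoid ha hab hfin.toFinset
    (fun p hp => ((Set.Finite.mem_toFinset _).1 hp).1)
  have hmem : ∀ {t : K}, t ∈ b → y * t ∈ O := by
    intro t ht
    have : y * t ∈ unitIdeal O := by
      rw [← hab]
      exact Submodule.mul_mem_mul hy ht
    exact this
  let J : Ideal O :=
    { carrier := {x | ∃ z ∈ b, ∃ w ∈ m, y * z + w = (x : K)}
      add_mem' := by
        rintro x x' ⟨z, hz, w, hw, h⟩ ⟨z', hz', w', hw', h'⟩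
        refine ⟨z + z', b.add_mem hz hz', w + w', m.add_mem hw hw', ?_⟩
        push_cast
        rw [← h, ← h']
        ring
      zero_mem' := ⟨0, b.zero_mem, 0, m.zero_mem, by simp⟩
      smul_mem' := by
        rintro c x ⟨z, hz, w, hw, h⟩
        refine ⟨c * z, hb _ c.2 _ hz, c * w, hm _ c.2 _ hw, ?_⟩
        rw [smul_eq_mul]
        push_cast
        rw [← h]
        ring }
  have hJ : J = ⊤ := by
    by_contra hne
    obtain ⟨p, hp, hJp⟩ := Ideal.exists_le_maximal J hne
    have hNJ : (N : O) ∈ J := ⟨0, b.zero_mem, N, hNm, by simp⟩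
    obtain ⟨z, hz, hyz⟩ := hT p ((Set.Finite.mem_toFinset _).2 ⟨hp, hJp hNJ⟩)
    apply hyz
    refine ⟨hmem hz, hJp ?_⟩
    exact ⟨z, hz, 0, m.zero_mem, by simp⟩
  have h1 : (1 : O) ∈ J := by rw [hJ]; exact Submodule.mem_top
  obtain ⟨z, hz, w, hw, h⟩ := h1
  exact ⟨y, hy, z, hz, w, hw, by simpa using h⟩

/-- the simple relation implies the textual one -/
theorem RelS.toRel {σ₂ : K →+* ℝ} (hfg : (unitIdeal O).FG) {m : Submodule ℤ K} (hm : IsMod O m)
    {N : ℕ} (hN : 0 < N) (hNm : (N : K) ∈ m) (h1m : (1 : K) ∉ m)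
    {a b : Submodule ℤ K} (ha : InMonoid O m a) (hb : InMonoid O m b)
    (h : RelS σ₂ O m a b) : Rel σ₂ O m a b := by
  obtain ⟨l, hl, rfl, h⟩ := h
  obtain ⟨⟨ha0, a', ha1, ha2⟩, ha3⟩ := ha
  obtain ⟨y, hy, z, hz, w, hw, hyz⟩ := exists_local_gen hfg hm hN hNm ha0 ha1 ha2
  have hy0 : y ≠ 0 := by
    rintro rfl
    rw [zero_mul, zero_add] at hyz
    rw [hyz] at hw
    exact h1m hw
  have hyzO : y * z ∈ O := by
    have : y * z ∈ unitIdeal O := by
      rw [← ha2]
      exact Submodule.mul_mem_mul hy hz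
    exact this
  have hcop : IsCop O m (y * z) := ⟨hyzO, 1, O.one_mem, w, hw, by rw [mul_one]; exact hyz⟩
  refine ⟨scale y⁻¹ a, ⟨IsInvertible.scale ⟨ha0, a', ha1, ha2⟩ (inv_ne_zero hy0), ?_⟩,
    y, l * y, ha3 y hy, hb.2 _ (smul_mem_scale hy), ?_, ?_, ?_, ?_⟩
  · intro x hx
    obtain ⟨t, ht, rfl⟩ := mem_scale.1 hx
    refine ⟨y * z, hcop, ?_⟩
    have e : y * z * (y⁻¹ * t) = t * z := by
      field_simp
    rw [e, ← ha2]
    exact Submodule.mul_mem_mul ht hz
  · have e : y - l * y = -((l - 1) * y) := by ring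
    rw [e]
    exact (h y hy).neg
  · rw [map_mul]
    have h1 : σ₂ y ≠ 0 := (map_ne_zero σ₂).2 hy0
    have h2 : 0 < σ₂ y * σ₂ y := mul_self_pos.2 h1
    calc (0 : ℝ) < σ₂ l * (σ₂ y * σ₂ y) := mul_pos hl h2
      _ = _ := by ring
  · rw [scale_scale, mul_inv_cancel₀ hy0, scale_one]
  · rw [scale_scale, mul_assoc, mul_inv_cancel₀ hy0, mul_one]

theorem rel_iff {σ₂ : K →+* ℝ} (hfg : (unitIdeal O).FG) {m : Submodule ℤ K} (hm : IsMod O m)
    {N : ℕ} (hN : 0 < N) (hNm : (N : K) ∈ m) (h1m : (1 : K) ∉ m)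
    {a b : Submodule ℤ K} (ha : InMonoid O m a) (hb : InMonoid O m b) :
    Rel σ₂ O m a b ↔ RelS σ₂ O m a b :=
  ⟨fun h => h.toS hm, fun h => h.toRel hfg hm hN hNm h1m ha hb⟩

end max

/-- finiteness of the index -/
theorem relIndex_ne_zero (q p : Submodule ℤ K) (hq : q.FG) {N : ℕ} (hN : 0 < N)
    (h : scale (N : K) q ≤ p) : p.toAddSubgroup.relIndex q.toAddSubgroup ≠ 0 := by
  have : Module.Finite ℤ q := Module.Finite.iff_fg.2 hq
  have hfin : Finite (↥q ⧸ (scale (N : K) q).submoduleOf q) := by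
    apply Module.finite_of_fg_torsion
    intro x
    induction x using Submodule.Quotient.induction_on with
    | _ x =>
      refine ⟨⟨(N : ℤ), mem_nonZeroDivisors_of_ne_zero (by exact_mod_cast hN.ne')⟩, ?_⟩
      rw [Submonoid.mk_smul, ← Submodule.Quotient.mk_smul, Submodule.Quotient.mk_eq_zero]
      refine (mem_scale (c := (N : K)) (a := q) (x := (((N : ℤ) • x : q) : K))).2 ⟨x.1, x.2, ?_⟩
      simp
  have h1 : (scale (N : K) q).toAddSubgroup.relIndex q.toAddSubgroup ≠ 0 := by
    have : Finite (↥q.toAddSubgroup ⧸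
        (scale (N : K) q).toAddSubgroup.addSubgroupOf q.toAddSubgroup) := hfin
    exact AddSubgroup.index_ne_zero_of_finite
  intro h0
  apply h1
  have hle : (scale (N : K) q).toAddSubgroup ≤ p.toAddSubgroup := h
  have := AddSubgroup.relIndex_dvd_of_le_left q.toAddSubgroup hle
  rw [h0] at this
  exact Nat.eq_zero_of_zero_dvd this

/-- the index of an invertible ideal is the index of its extension -/
theorem idx_ex (C : Ctx K) (hfgO : (unitIdeal C.O).FG) (hfgM : (unitIdeal C.M).FG)
    {b : Submodule ℤ K} (hb : Int' C.O b) :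
    idx (unitIdeal C.O) b = idx (unitIdeal C.M) (C.ex b) := by
  obtain ⟨⟨hb0, b', hb1, hb2⟩, hbO⟩ := hb
  obtain ⟨y, hy, z, hz, w, hw, hyz⟩ := exists_local_gen hfgO C.isMod_f
    (lt_of_lt_of_le two_pos C.hN) C.hNf hb0 hb1 hb2
  have hOM : unitIdeal C.O ≤ unitIdeal C.M := C.hOM
  -- the index of `b` in its extension
  have h1 : b.toAddSubgroup.relIndex (C.ex b).toAddSubgroup =
      (unitIdeal C.O).toAddSubgroup.relIndex (unitIdeal C.M).toAddSubgroup := by
    let φ : K →+ K := AddMonoidHom.mulLeft y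
    have e1 : b.toAddSubgroup ⊔ (unitIdeal C.M).toAddSubgroup.map φ =
        (C.ex b).toAddSubgroup := by
      apply le_antisymm
      · apply sup_le
        · exact C.le_ex b
        · rintro x ⟨t, ht, rfl⟩
          exact Submodule.mul_mem_mul hy ht
      · intro x hx
        have hx : x ∈ C.ex b := hx
        have e : x = y * (x * z) + w * x := by
          calc x = (y * z + w) * x := by rw [hyz, one_mul]
            _ = _ := by ring
        rw [e]
        have m1 : x * z ∈ unitIdeal C.M := by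
          have h2 : C.ex b * b' ≤ unitIdeal C.M := by
            unfold Ctx.ex
            rw [mul_assoc, mul_comm (unitIdeal C.M), ← mul_assoc, hb2, C.unit_mul_M]
          exact h2 (Submodule.mul_mem_mul hx hz)
        have m2 : w * x ∈ b := by
          have h2 : C.f * C.ex b ≤ b := by
            unfold Ctx.ex
            rw [mul_comm b, ← mul_assoc, C.hf.mul_unit, Submodule.mul_le]
            intro s hs t ht
            exact hb0 s (C.hfO hs) t ht
          exact h2 (Submodule.mul_mem_mul hw hx)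
        refine (b.toAddSubgroup ⊔ (unitIdeal C.M).toAddSubgroup.map φ).add_mem ?_ ?_
        · exact (le_sup_right : _ ≤ b.toAddSubgroup ⊔ (unitIdeal C.M).toAddSubgroup.map φ)
            ⟨x * z, m1, rfl⟩
        · exact (le_sup_left : _ ≤ b.toAddSubgroup ⊔ (unitIdeal C.M).toAddSubgroup.map φ) m2
    have e2 : b.toAddSubgroup.comap φ ⊓ (unitIdeal C.M).toAddSubgroup =
        (unitIdeal C.O).toAddSubgroup := by
      apply le_antisymm
      · rintro x ⟨hx1, hx2⟩
        have hx1 : y * x ∈ b := hx1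
        have hx2 : x ∈ C.M := hx2
        have e : x = (y * x) * z + x * w := by
          calc x = (y * z + w) * x := by rw [hyz, one_mul]
            _ = _ := by ring
        change x ∈ unitIdeal C.O
        rw [e]
        refine (unitIdeal C.O).add_mem ?_ (C.hfO (C.hf x hx2 w hw))
        rw [← hb2]
        exact Submodule.mul_mem_mul hx1 hz
      · intro x hx
        have hx : x ∈ C.O := hx
        refine ⟨?_, hOM hx⟩
        change y * x ∈ b
        rw [mul_comm]
        exact hb0 x hx y hy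
    rw [← e1, AddSubgroup.relIndex_sup_left, ← AddSubgroup.relIndex_comap,
      ← AddSubgroup.inf_relIndex_right, e2]
  have h2 : (unitIdeal C.O).toAddSubgroup.relIndex (unitIdeal C.M).toAddSubgroup ≠ 0 := by
    apply relIndex_ne_zero _ _ hfgM (lt_of_lt_of_le two_pos C.hN)
    intro x hx
    obtain ⟨t, ht, rfl⟩ := mem_scale.1 hx
    rw [mul_comm]
    exact C.hfO (C.hf t ht _ C.hNf)
  have h3 := AddSubgroup.relIndex_mul_relIndex b.toAddSubgroup (unitIdeal C.O).toAddSubgroup
    (unitIdeal C.M).toAddSubgroup hbO hOM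
  have h4 := AddSubgroup.relIndex_mul_relIndex b.toAddSubgroup (C.ex b).toAddSubgroup
    (unitIdeal C.M).toAddSubgroup (C.le_ex b) (C.ex_le hbO)
  unfold idx
  rw [← h4, h1, mul_comm] at h3
  exact Nat.eq_of_mul_eq_mul_left (Nat.pos_of_ne_zero h2) h3

end H33.MS
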