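import Pool.Agent.T6.H33.MS.Gal
import Pool.Agent.T6.H33.MS.KL
import Pool.Agent.T6.H33.MS.Cls

namespace H33.MS

variable {K : Type} [Field K]

theorem colon_le (m : Submodule ℤ K) : colon m ≤ m := by
  intro x hx
  have := hx 1 isIntegral_one
  rwa [one_mul] at this

theorem isMod_colon (m : Submodule ℤ K) : IsMod (integralClosure ℤ K) (colon m) := by
  intro x hx y hy z hz
  rw [← mul_assoc]
  exact hy _ (hz.mul hx)

theorem colon_colon (m : Submodule ℤ K) : colon (colon m) = colon m := by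
  apply le_antisymm (colon_le _)
  intro x hx y hy
  exact isMod_colon m y hy x hx

theorem one_notMem {O : Subalgebra ℤ K} {m : Submodule ℤ K} (hm : IsModulus O m) :
    (1 : K) ∉ m := by
  intro h
  apply hm.2.2.2
  apply le_antisymm hm.2.1
  intro x hx
  have := hm.1 x hx 1 h
  rwa [mul_one] at this

/-- a nonzero ideal of an order contains a positive integer -/
theorem exists_nat_mem {O : Subalgebra ℤ K} [CharZero K] (hO : ∀ x ∈ O, IsIntegral ℤ x)
    {m : Submodule ℤ K} (hm : IsMod O m) (hmO : m ≤ unitIdeal O) (h0 : m ≠ ⊥) :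
    ∃ k : ℕ, 0 < k ∧ (k : K) ∈ m := by
  obtain ⟨μ, hμ, hμ0⟩ := (Submodule.ne_bot_iff m).1 h0
  have hint := hO μ (hmO hμ)
  have hc : (minpoly ℤ μ).coeff 0 ≠ 0 := by
    have h1 : minpoly ℚ μ = (minpoly ℤ μ).map (algebraMap ℤ ℚ) :=
      minpoly.isIntegrallyClosed_eq_field_fractions' ℚ hint
    have h2 : (minpoly ℚ μ).coeff 0 ≠ 0 := minpoly.coeff_zero_ne_zero (hint.tower_top) hμ0
    rw [h1, Polynomial.coeff_map] at h2
    intro h
    exact h2 (by rw [h, map_zero])
  have h1 : Polynomial.aeval μ (minpoly ℤ μ) = 0 := minpoly.aeval ℤ μ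
  generalize minpoly ℤ μ = P at hc h1
  rw [← Polynomial.divX_mul_X_add P, map_add, map_mul, Polynomial.aeval_X,
    Polynomial.aeval_C] at h1
  have hQ : Polynomial.aeval μ P.divX ∈ O := by
    have e : Polynomial.aeval μ P.divX =
        ((Polynomial.aeval (⟨μ, hmO hμ⟩ : O) P.divX : O) : K) := by
      rw [Polynomial.aeval_subalgebra_coe]
    rw [e]
    exact (Polynomial.aeval (⟨μ, hmO hμ⟩ : O) P.divX).2
  have h2 : ((P.coeff 0 : ℤ) : K) ∈ m := by
    have e : ((P.coeff 0 : ℤ) : K) = -(Polynomial.aeval μ P.divX * μ) := by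
      have : algebraMap ℤ K (P.coeff 0) = ((P.coeff 0 : ℤ) : K) := rfl
      rw [this] at h1
      linear_combination h1
    rw [e]
    exact m.neg_mem (hm _ hQ _ hμ)
  refine ⟨(P.coeff 0).natAbs, Int.natAbs_pos.2 hc, ?_⟩
  rcases Int.natAbs_eq (P.coeff 0) with h | h
  · have : (((P.coeff 0).natAbs : ℕ) : K) = ((P.coeff 0 : ℤ) : K) := by
      conv_rhs => rw [h]
      simp
    rw [this]
    exact h2
  · have : (((P.coeff 0).natAbs : ℕ) : K) = -((P.coeff 0 : ℤ) : K) := by
      conv_rhs => rw [h]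
      simp
    rw [this]
    exact m.neg_mem h2

/-- the context attached to `(O, m)` -/
theorem exists_ctx [CharZero K] (σ₂ : K →+* ℝ) {O : Subalgebra ℤ K} {m : Submodule ℤ K}
    (hO : IsOrder O) (hm : IsModulus O m) :
    ∃ C : Ctx K, C.σ₂ = σ₂ ∧ C.O = O ∧ C.M = integralClosure ℤ K ∧ C.m = m ∧ C.f = colon m := by
  obtain ⟨k, hk, hkm⟩ := exists_nat_mem hO.1 hm.1 hm.2.1 hm.2.2.1
  obtain ⟨hO1, n, hn, hnO⟩ := hO
  refine ⟨⟨σ₂, O, integralClosure ℤ K, m, colon m, hO1, hm.1, isMod_colon m, colon_le m,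
    hm.2.1, 2 * (n * k), ?_, ?_⟩, rfl, rfl, rfl, rfl, rfl⟩
  · have : 0 < n * k := Nat.mul_pos hn hk
    omega
  · intro y hy
    have e : y * ((2 * (n * k) : ℕ) : K) = (2 * ((n : K) * y)) * (k : K) := by
      push_cast
      ring
    rw [e]
    refine hm.1 _ (O.mul_mem ?_ (hnO y hy)) _ hkm
    exact_mod_cast natCast_mem O 2

theorem fg_of_le [NumberField K] {q : Submodule ℤ K}
    (hq : q ≤ unitIdeal (integralClosure ℤ K)) : q.FG := by
  have h : IsNoetherian ℤ (NumberField.RingOfIntegers K) := inferInstance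
  have h' : IsNoetherian ℤ (unitIdeal (integralClosure ℤ K)) := h
  exact (isNoetherian_submodule.1 h') q hq

end H33.MS
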