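import Pool.Agent.T6.H33.MS.Ext

namespace H33.MS

variable {K : Type} [Field K]

/-- integral invertible ideals -/
def Int' (O : Subalgebra ℤ K) (b : Submodule ℤ K) : Prop := IsInvertible O b ∧ b ≤ unitIdeal O

/-- A system of representatives of the classes of integral ideals of `M` modulo `f`. -/
structure Reps (C : Ctx K) where
  r : Submodule ℤ K → Submodule ℤ K
  l : Submodule ℤ K → K
  hr : ∀ t, Int' C.M t → Int' C.M (r t)
  hl : ∀ t, Int' C.M t → 0 < C.σ₂ (l t)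
  hs : ∀ t, Int' C.M t → t = scale (l t) (r t)
  hloc : ∀ t, Int' C.M t → ∀ x ∈ r t, InLoc C.M C.f C.f ((l t - 1) * x)
  hrel : ∀ t t', Int' C.M t → Int' C.M t' → RelS C.σ₂ C.M C.f t t' → r t = r t'
  hfin : {q | ∃ t, Int' C.M t ∧ r t = q}.Finite

namespace Reps

variable {C : Ctx K} (R : Reps C)

theorem relr {t : Submodule ℤ K} (ht : Int' C.M t) : RelS C.σ₂ C.M C.f (R.r t) t :=
  ⟨R.l t, R.hl t ht, R.hs t ht, R.hloc t ht⟩

theorem rr {t : Submodule ℤ K} (ht : Int' C.M t) : R.r (R.r t) = R.r t :=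
  R.hrel _ _ (R.hr t ht) ht (R.relr ht)

theorem int_ex {b : Submodule ℤ K} (hb : Int' C.O b) : Int' C.M (C.ex b) :=
  ⟨C.ex_inv hb.1, C.ex_le hb.2⟩

/-- The ideal in the class of `b` whose extension is the representative. -/
noncomputable def dn (b : Submodule ℤ K) : Submodule ℤ K := scale (R.l (C.ex b))⁻¹ b

theorem dn_spec {b : Submodule ℤ K} (hb : Int' C.O b) :
    Int' C.O (R.dn b) ∧ RelS C.σ₂ C.O C.m b (R.dn b) ∧ C.ex (R.dn b) = R.r (C.ex b) := by
  have ht := int_ex hb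
  have hl := R.hl _ ht
  have h0 : R.l (C.ex b) ≠ 0 := ne_zero_of_pos hl
  have hex : scale (R.l (C.ex b))⁻¹ (C.ex b) = R.r (C.ex b) := by
    have h := congrArg (scale (R.l (C.ex b))⁻¹) (R.hs _ ht)
    rw [scale_inv_scale h0] at h
    exact h
  have hloc : ∀ x ∈ C.ex b, InLoc C.M C.f C.f (((R.l (C.ex b))⁻¹ - 1) * x) := by
    intro x hx
    rw [R.hs _ ht] at hx
    obtain ⟨y, hy, rfl⟩ := mem_scale.1 hx
    have : ((R.l (C.ex b))⁻¹ - 1) * (R.l (C.ex b) * y) = -((R.l (C.ex b) - 1) * y) := by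
      field_simp
      ring
    rw [this]
    exact (R.hloc _ ht y hy).neg
  have hk := C.key hb.2 (l := (R.l (C.ex b))⁻¹) (by rw [hex]; exact (R.hr _ ht).2) hloc
  refine ⟨⟨hb.1.scale (inv_ne_zero h0), C.key_le hb.2 hk⟩, C.key_rel ?_ hk, ?_⟩
  · rw [map_inv₀]
    exact inv_pos.2 hl
  · unfold dn
    rw [C.ex_scale, hex]

/-- The finite set attached to a class. -/
def P (a : Submodule ℤ K) : Set (Submodule ℤ K) :=
  {b | Int' C.O b ∧ RelS C.σ₂ C.O C.m a b ∧ R.r (C.ex b) = C.ex b}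

theorem dn_mem {a b : Submodule ℤ K} (hb : Int' C.O b) (hab : RelS C.σ₂ C.O C.m a b) :
    R.dn b ∈ R.P a := by
  obtain ⟨h1, h2, h3⟩ := R.dn_spec hb
  refine ⟨h1, hab.trans C.hm h2, ?_⟩
  rw [h3, R.rr (int_ex hb)]

theorem P_congr {a a' : Submodule ℤ K} (h : RelS C.σ₂ C.O C.m a a') : R.P a = R.P a' := by
  ext b
  constructor
  · rintro ⟨h1, h2, h3⟩
    exact ⟨h1, h.symm.trans C.hm h2, h3⟩
  · rintro ⟨h1, h2, h3⟩
    exact ⟨h1, h.trans C.hm h2, h3⟩

/-- finitely many subgroups between `Nq` and `q` -/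
theorem finite_between (q : Submodule ℤ K) (hq : q.FG) {N : ℕ} (hN : 0 < N) :
    {b : Submodule ℤ K | scale (N : K) q ≤ b ∧ b ≤ q}.Finite := by
  have : Module.Finite ℤ q := Module.Finite.iff_fg.2 hq
  have : Finite (↥q ⧸ (scale (N : K) q).submoduleOf q) := by
    apply Module.finite_of_fg_torsion
    intro x
    induction x using Submodule.Quotient.induction_on with
    | _ x =>
      refine ⟨⟨(N : ℤ), mem_nonZeroDivisors_of_ne_zero (by exact_mod_cast hN.ne')⟩, ?_⟩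
      rw [Submonoid.mk_smul, ← Submodule.Quotient.mk_smul, Submodule.Quotient.mk_eq_zero]
      refine (mem_scale (c := (N : K)) (a := q) (x := (((N : ℤ) • x : q) : K))).2 ⟨x.1, x.2, ?_⟩
      simp
  refine Set.Finite.of_injOn (f := fun b : Submodule ℤ K =>
    {y : ↥q ⧸ (scale (N : K) q).submoduleOf q | ∃ x : q, x.1 ∈ b ∧ Submodule.Quotient.mk x = y})
    (t := Set.univ) (fun _ _ => Set.mem_univ _) ?_ Set.finite_univ
  have key : ∀ b c : Submodule ℤ K, scale (N : K) q ≤ c → b ≤ q →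
      ({y : ↥q ⧸ (scale (N : K) q).submoduleOf q |
        ∃ x : q, x.1 ∈ b ∧ Submodule.Quotient.mk x = y} ⊆
      {y | ∃ x : q, x.1 ∈ c ∧ Submodule.Quotient.mk x = y}) → b ≤ c := by
    intro b c hc hb h x hx
    obtain ⟨z, hz, hzx⟩ := h ⟨⟨x, hb hx⟩, hx, rfl⟩
    have h1 := (Submodule.Quotient.eq _).1 hzx
    have h2 : z.1 - x ∈ c := hc h1
    have : x = z.1 - (z.1 - x) := by ring
    rw [this]
    exact c.sub_mem hz h2
  intro b hb c hc h
  exact le_antisymm (key b c hc.1 hb.2 (le_of_eq h)) (key c b hb.1 hc.2 (le_of_eq h.symm))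

theorem P_finite (hfg : ∀ q : Submodule ℤ K, q ≤ unitIdeal C.M → q.FG) (a : Submodule ℤ K) :
    (R.P a).Finite := by
  refine Set.Finite.subset (Set.Finite.biUnion R.hfin (t := fun q =>
    {b : Submodule ℤ K | q ≤ unitIdeal C.M ∧ scale (C.N : K) q ≤ b ∧ b ≤ q}) ?_) ?_
  · intro q hq
    by_cases h : q ≤ unitIdeal C.M
    · exact (finite_between q (hfg q h) (lt_of_lt_of_le two_pos C.hN)).subset
        (fun b hb => hb.2)
    · refine Set.Finite.subset Set.finite_empty ?_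
      intro b hb
      exact absurd hb.1 h
  · rintro b ⟨h1, _, h3⟩
    have ht := int_ex h1
    refine Set.mem_biUnion (x := C.ex b) ⟨C.ex b, ht, h3⟩ ⟨ht.2, ?_, C.le_ex b⟩
    unfold Ctx.ex scale
    rw [← mul_assoc, mul_comm _ b, mul_assoc]
    calc b * (Submodule.span ℤ {(C.N : K)} * unitIdeal C.M) ≤ b * unitIdeal C.O := by
          apply Submodule.mul_le.2
          intro x hx y hy
          apply Submodule.mul_mem_mul hx
          obtain ⟨z, hz, rfl⟩ := mem_scale.1 hy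
          apply C.hfO
          rw [mul_comm]
          exact C.hf z hz _ C.hNf
      _ = b := h1.1.1.mul_unit

end Reps

end H33.MS
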