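import Pool.Agent.T6.H33.MS.Sets

namespace H33.MS

variable {K : Type} [Field K]

namespace Reps

variable {C : Ctx K} (R : Reps C)

/-- The finite set `P a` as a `Finset`. -/
noncomputable def Pf (hfg : ∀ q : Submodule ℤ K, q ≤ unitIdeal C.M → q.FG)
    (a : Submodule ℤ K) : Finset (Submodule ℤ K) := (R.P_finite hfg a).toFinset

theorem mem_Pf (hfg : ∀ q : Submodule ℤ K, q ≤ unitIdeal C.M → q.FG)
    {a p : Submodule ℤ K} : p ∈ R.Pf hfg a ↔ p ∈ R.P a := Set.Finite.mem_toFinset _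

theorem Pf_congr (hfg : ∀ q : Submodule ℤ K, q ≤ unitIdeal C.M → q.FG)
    {a a' : Submodule ℤ K} (h : RelS C.σ₂ C.O C.m a a') : R.Pf hfg a = R.Pf hfg a' := by
  ext p
  rw [R.mem_Pf, R.mem_Pf, R.P_congr h]

theorem up_spec {a p t : Submodule ℤ K} (hp : p ∈ R.P a) (ht : Int' C.M t)
    (h : RelS C.σ₂ C.M C.f (C.ex p) t) :
    Int' C.O (scale (R.l t) p) ∧ RelS C.σ₂ C.O C.m a (scale (R.l t) p) ∧
      C.ex (scale (R.l t) p) = t := by
  obtain ⟨h1, h2, h3⟩ := hp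
  have hrt : R.r t = C.ex p := by rw [← h3]; exact (R.hrel _ _ (int_ex h1) ht h).symm
  have hs := R.hs t ht
  have hl := R.hl t ht
  have hloc := R.hloc t ht
  rw [hrt] at hs hloc
  have hk := C.key h1.2 (l := R.l t) (by rw [← hs]; exact ht.2) hloc
  refine ⟨⟨h1.1.scale (ne_zero_of_pos hl), C.key_le h1.2 hk⟩,
    h2.trans C.hm (C.key_rel hl hk), ?_⟩
  rw [C.ex_scale, ← hs]

/-- the map of the index sets -/
noncomputable def upMap (hfg : ∀ q : Submodule ℤ K, q ≤ unitIdeal C.M → q.FG)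
    (a : Submodule ℤ K)
    (x : Σ p : {p // p ∈ R.Pf hfg a}, {t // Int' C.M t ∧ RelS C.σ₂ C.M C.f (C.ex p.1) t}) :
    {b // Int' C.O b ∧ RelS C.σ₂ C.O C.m a b} :=
  ⟨scale (R.l x.2.1) x.1.1,
    (R.up_spec ((R.mem_Pf hfg).1 x.1.2) x.2.2.1 x.2.2.2).1,
    (R.up_spec ((R.mem_Pf hfg).1 x.1.2) x.2.2.1 x.2.2.2).2.1⟩

theorem upMap_bij (hfg : ∀ q : Submodule ℤ K, q ≤ unitIdeal C.M → q.FG)
    (a : Submodule ℤ K) : Function.Bijective (R.upMap hfg a) := by
  constructor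
  · rintro ⟨⟨p, hp⟩, ⟨t, ht⟩⟩ ⟨⟨p', hp'⟩, ⟨t', ht'⟩⟩ h
    have h0 : scale (R.l t) p = scale (R.l t') p' := congrArg Subtype.val h
    have e1 := (R.up_spec ((R.mem_Pf hfg).1 hp) ht.1 ht.2).2.2
    have e2 := (R.up_spec ((R.mem_Pf hfg).1 hp') ht'.1 ht'.2).2.2
    have ht : t = t' := by rw [← e1, ← e2, h0]
    subst ht
    have hp : p = p' := scale_inj (ne_zero_of_pos (R.hl t ht'.1)) h0
    subst hp
    rfl
  · rintro ⟨b, hb1, hb2⟩
    obtain ⟨h1, h2, h3⟩ := R.dn_spec hb1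
    refine ⟨⟨⟨R.dn b, (R.mem_Pf hfg).2 (R.dn_mem hb1 hb2)⟩, ⟨C.ex b, int_ex hb1, ?_⟩⟩, ?_⟩
    · rw [h3]
      exact R.relr (int_ex hb1)
    · apply Subtype.ext
      change scale (R.l (C.ex b)) (R.dn b) = b
      unfold dn
      rw [scale_scale_inv (ne_zero_of_pos (R.hl _ (int_ex hb1)))]

theorem hasSum_P (hfg : ∀ q : Submodule ℤ K, q ≤ unitIdeal C.M → q.FG) (a : Submodule ℤ K)
    (n g : Submodule ℤ K → ℂ)
    (hg : ∀ q, Int' C.M q → HasSum
      (fun y : {t // Int' C.M t ∧ RelS C.σ₂ C.M C.f q t} => n y.1) (g q)) :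
    HasSum (fun b : {b // Int' C.O b ∧ RelS C.σ₂ C.O C.m a b} => n (C.ex b.1))
      (∑ p ∈ R.Pf hfg a, g (C.ex p)) := by
  rw [← (Equiv.ofBijective _ (R.upMap_bij hfg a)).hasSum_iff]
  have e : (fun b : {b // Int' C.O b ∧ RelS C.σ₂ C.O C.m a b} => n (C.ex b.1)) ∘
      (Equiv.ofBijective _ (R.upMap_bij hfg a)) = fun x => n x.2.1 := by
    funext x
    change n (C.ex (scale (R.l x.2.1) x.1.1)) = n x.2.1
    rw [(R.up_spec ((R.mem_Pf hfg).1 x.1.2) x.2.2.1 x.2.2.2).2.2]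
  rw [e]
  have hint : ∀ p : {p // p ∈ R.Pf hfg a}, Int' C.M (C.ex p.1) :=
    fun p => int_ex ((R.mem_Pf hfg).1 p.2).1
  have h1 : HasSum (fun p : {p // p ∈ R.Pf hfg a} => g (C.ex p.1))
      (∑ p ∈ R.Pf hfg a, g (C.ex p)) := by
    have := hasSum_fintype (fun p : {p // p ∈ R.Pf hfg a} => g (C.ex p.1))
    rwa [Finset.sum_coe_sort (R.Pf hfg a) (fun p => g (C.ex p))] at this
  refine HasSum.sigma_of_hasSum h1 (fun p => hg _ (hint p)) ?_
  apply Summable.of_norm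
  rw [summable_sigma_of_nonneg (fun _ => norm_nonneg _)]
  refine ⟨fun p => (hg _ (hint p)).summable.norm, ?_⟩
  exact (hasSum_fintype _).summable

/-- products over the finite sets of `a` and `a * c`, for `c` coprime to `f` -/
theorem prod_dn (hfg : ∀ q : Submodule ℤ K, q ≤ unitIdeal C.M → q.FG) {a c d : Submodule ℤ K}
    (ha : InMonoid C.O C.m a)
    (hc : CopIdeal C.O C.f c) (hd : CopIdeal C.O C.f d)
    (hcd : RelS C.σ₂ C.O C.m (unitIdeal C.O) (c * d)) {A : Type*} [CommMonoid A]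
    (F : Submodule ℤ K → A) :
    ∏ p ∈ R.Pf hfg a, F (R.dn (p * c)) = ∏ q ∈ R.Pf hfg (a * c), F q := by
  classical
  -- the map and its properties for arbitrary `a`, `c`
  have hmul : ∀ {p c : Submodule ℤ K}, Int' C.O p → CopIdeal C.O C.f c → Int' C.O (p * c) := by
    intro p c hp hc
    refine ⟨hp.1.mul hc.1, ?_⟩
    rw [Submodule.mul_le]
    intro x hx y hy
    exact C.O.mul_mem (hp.2 hx) (hc.2.1 hy)
  have hmaps : ∀ {a c : Submodule ℤ K}, CopIdeal C.O C.f c →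
      ∀ p ∈ R.Pf hfg a, R.dn (p * c) ∈ R.Pf hfg (a * c) := by
    intro a c hc p hp
    rw [R.mem_Pf] at hp ⊢
    exact R.dn_mem (hmul hp.1 hc) (hp.2.1.mul C.hm (inMonoid_of_le hc.1 hc.2.1))
  have hinj : ∀ {a c : Submodule ℤ K}, CopIdeal C.O C.f c →
      Set.InjOn (fun p => R.dn (p * c)) (R.Pf hfg a : Set (Submodule ℤ K)) := by
    intro a c hc p hp q hq h
    have hp := (R.mem_Pf hfg).1 hp
    have hq := (R.mem_Pf hfg).1 hq
    have h : R.dn (p * c) = R.dn (q * c) := h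
    have ep := (R.dn_spec (hmul hp.1 hc)).2.2
    have eq := (R.dn_spec (hmul hq.1 hc)).2.2
    have hexp : C.ex p = C.ex q := by
      have h1 : RelS C.σ₂ C.M C.f (C.ex p * C.ex c) (C.ex q * C.ex c) := by
        rw [← C.ex_mul, ← C.ex_mul]
        refine (R.relr (int_ex (hmul hp.1 hc))).symm.trans C.hf ?_
        rw [← ep, h, eq]
        exact R.relr (int_ex (hmul hq.1 hc))
      have h2 := h1.cancel C.hf (C.isMod_ex p) (C.isMod_ex q) (C.cop_ex hc)
      rw [← hp.2.2, ← hq.2.2]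
      exact R.hrel _ _ (int_ex hp.1) (int_ex hq.1) h2
    have hpc : p * c = q * c := by
      unfold dn at h
      have e3 : C.ex (p * c) = C.ex (q * c) := by rw [C.ex_mul, C.ex_mul, hexp]
      rw [e3] at h
      exact scale_inj (inv_ne_zero (ne_zero_of_pos (R.hl _ (int_ex (hmul hq.1 hc))))) h
    exact hc.1.cancel hp.1.1.1 hq.1.1.1 hpc
  have hcard : (R.Pf hfg (a * c)).card ≤ (R.Pf hfg a).card := by
    have e : R.Pf hfg (a * c * d) = R.Pf hfg a := by
      symm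
      apply R.Pf_congr
      have h := hcd.mul C.hm ha
      rw [ha.1.1.unit_mul, mul_comm (c * d), ← mul_assoc] at h
      exact h
    rw [← e]
    exact Finset.card_le_card_of_injOn _ (hmaps hd) (hinj hd)
  have himg : (R.Pf hfg a).image (fun p => R.dn (p * c)) = R.Pf hfg (a * c) := by
    apply Finset.eq_of_subset_of_card_le
    · intro q hq
      obtain ⟨p, hp, rfl⟩ := Finset.mem_image.1 hq
      exact hmaps hc p hp
    · rw [Finset.card_image_of_injOn (hinj hc)]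
      exact hcard
  rw [← himg, Finset.prod_image (hinj hc)]

/-- the version for functions on the classes -/
theorem prod_class (hfg : ∀ q : Submodule ℤ K, q ≤ unitIdeal C.M → q.FG) {a c d : Submodule ℤ K}
    (ha : InMonoid C.O C.m a)
    (hc : CopIdeal C.O C.f c) (hd : CopIdeal C.O C.f d)
    (hcd : RelS C.σ₂ C.O C.m (unitIdeal C.O) (c * d)) {A : Type*} [CommMonoid A]
    (F : Submodule ℤ K → A)
    (hF : ∀ t t', Int' C.M t → Int' C.M t' → RelS C.σ₂ C.M C.f t t' → F t = F t') :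
    ∏ p ∈ R.Pf hfg a, F (C.ex p * C.ex c) = ∏ q ∈ R.Pf hfg (a * c), F (C.ex q) := by
  rw [← R.prod_dn hfg ha hc hd hcd (fun q => F (C.ex q))]
  apply Finset.prod_congr rfl
  intro p hp
  have hp := (R.mem_Pf hfg).1 hp
  have hpc : Int' C.O (p * c) := by
    refine ⟨hp.1.1.mul hc.1, ?_⟩
    rw [Submodule.mul_le]
    intro x hx y hy
    exact C.O.mul_mem (hp.1.2 hx) (hc.2.1 hy)
  have h3 := (R.dn_spec hpc).2.2
  rw [← C.ex_mul]
  apply hF _ _ (int_ex hpc) (int_ex (R.dn_spec hpc).1)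
  rw [h3]
  exact (R.relr (int_ex hpc)).symm

/-- the additive form -/
theorem sum_class (hfg : ∀ q : Submodule ℤ K, q ≤ unitIdeal C.M → q.FG) {a c d : Submodule ℤ K}
    (ha : InMonoid C.O C.m a)
    (hc : CopIdeal C.O C.f c) (hd : CopIdeal C.O C.f d)
    (hcd : RelS C.σ₂ C.O C.m (unitIdeal C.O) (c * d)) {A : Type*} [AddCommMonoid A]
    (F : Submodule ℤ K → A)
    (hF : ∀ t t', Int' C.M t → Int' C.M t' → RelS C.σ₂ C.M C.f t t' → F t = F t') :
    ∑ p ∈ R.Pf hfg a, F (C.ex p * C.ex c) = ∑ q ∈ R.Pf hfg (a * c), F (C.ex q) := by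
  have := R.prod_class hfg ha hc hd hcd (A := Multiplicative A)
    (fun t => Multiplicative.ofAdd (F t)) (fun t t' h1 h2 h3 => by rw [hF t t' h1 h2 h3])
  have h := congrArg Multiplicative.toAdd this
  simpa [toAdd_prod] using h

end Reps

end H33.MS
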