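import Pool.Agent.T6.H33.MS.Main

namespace H33.MS

variable {K : Type} [Field K]

/-- The hypotheses on the maximal order in terms of the simple relation. -/
structure Data (C : Ctx K) (σ₁ : K →+* ℝ) (H : Type) [Field H] [Algebra K H] where
  hfg : ∀ q : Submodule ℤ K, q ≤ unitIdeal C.M → q.FG
  R : Reps C
  Art : Submodule ℤ K → (H ≃ₐ[K] H)
  ι : H →+* ℝ
  G : Submodule ℤ K → ℂ → ℂ
  ε : Submodule ℤ K → H
  hcomm : ∀ g h : H ≃ₐ[K] H, g * h = h * g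
  hι : ∀ x : K, ι (algebraMap K H x) = σ₁ x
  hA1 : ∀ b c, CopIdeal C.M C.f b → CopIdeal C.M C.f c → Art (b * c) = Art b * Art c
  hA2 : ∀ g, ∃ b, CopIdeal C.M C.f b ∧ Art b = g
  hA3 : ∀ b, CopIdeal C.M C.f b → (Art b = 1 ↔ RelS C.σ₂ C.M C.f (unitIdeal C.M) b)
  hG1 : ∀ a b, Int' C.M a → Int' C.M b → RelS C.σ₂ C.M C.f a b → G a = G b
  hG2 : ∀ a, Int' C.M a → DifferentiableOn ℂ (G a) {1}ᶜ
  hε0 : ∀ a b, Int' C.M a → Int' C.M b → RelS C.σ₂ C.M C.f a b → ε a = ε b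
  hε1 : ∀ a, Int' C.M a → IsIntegral ℤ (ε a) ∧ IsIntegral ℤ (ε a)⁻¹
  hi : ∀ a, Int' C.M a → ∀ α ∈ C.M, α + 1 ∈ C.f → 0 < C.σ₂ α →
    ((ι (ε a) : ℝ) : ℂ) = Complex.exp (-deriv (fun s => G a s - G (scale α a) s) 0)
  hii : ∀ a, Int' C.M a → ∀ b, CopIdeal C.M C.f b → Art b (ε a) = ε (a * b)
  hiii : ∀ a, Int' C.M a → ∀ τ : H →+* ℂ,
    (∀ x : K, τ (algebraMap K H x) = ((C.σ₂ x : ℝ) : ℂ)) → ‖τ (ε a)‖ = 1
  hiv : ∀ a, Int' C.M a → ∀ z : ℂ, z ^ 2 = ((ι (ε a) : ℝ) : ℂ) → ∀ s t : ℂ ≃+* ℂ,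
    (∀ x : K, s ((σ₁ x : ℝ) : ℂ) = ((σ₁ x : ℝ) : ℂ)) →
    (∀ x : K, t ((σ₁ x : ℝ) : ℂ) = ((σ₁ x : ℝ) : ℂ)) → s (t z) = t (s z)

namespace Data

variable {C : Ctx K} {σ₁ : K →+* ℝ} {H : Type} [Field H] [Algebra K H] (D : Data C σ₁ H)

theorem intP {a p : Submodule ℤ K} (hp : p ∈ D.R.Pf D.hfg a) : Int' C.M (C.ex p) :=
  Reps.int_ex ((D.R.mem_Pf D.hfg).1 hp).1

/-- the unit attached to a class -/
noncomputable def E (a : Submodule ℤ K) : H := ∏ p ∈ D.R.Pf D.hfg a, D.ε (C.ex p)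

/-- the zeta function of a class -/
noncomputable def Z (a : Submodule ℤ K) : ℂ → ℂ :=
  fun s => ∑ p ∈ D.R.Pf D.hfg a, D.G (C.ex p) s

theorem E_congr {a b : Submodule ℤ K} (h : RelS C.σ₂ C.O C.m a b) : D.E a = D.E b := by
  unfold E
  rw [D.R.Pf_congr D.hfg h]

theorem Z_congr {a b : Submodule ℤ K} (h : RelS C.σ₂ C.O C.m a b) : D.Z a = D.Z b := by
  unfold Z
  rw [D.R.Pf_congr D.hfg h]

theorem Z_diff (a : Submodule ℤ K) : DifferentiableOn ℂ (D.Z a) {1}ᶜ := by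
  unfold Z
  apply DifferentiableOn.fun_sum
  intro p hp
  exact D.hG2 _ (D.intP hp)

theorem E_int (a : Submodule ℤ K) : IsIntegral ℤ (D.E a) ∧ IsIntegral ℤ (D.E a)⁻¹ := by
  unfold E
  constructor
  · exact IsIntegral.prod _ (fun p hp => (D.hε1 _ (D.intP hp)).1)
  · rw [← Finset.prod_inv_distrib]
    exact IsIntegral.prod _ (fun p hp => (D.hε1 _ (D.intP hp)).2)

theorem art_E {a c : Submodule ℤ K} (ha : InMonoid C.O C.m a) (hc : CopIdeal C.O C.f c) :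
    D.Art (C.ex c) (D.E a) = D.E (a * c) := by
  obtain ⟨d, hd, _, hcd⟩ := C.exists_inv D.hA1 D.hA2 D.hA3 hc
  unfold E
  rw [map_prod, ← D.R.prod_class D.hfg ha hc hd hcd (fun t => D.ε t)
    (fun t t' h h' hr => D.hε0 t t' h h' hr)]
  apply Finset.prod_congr rfl
  intro p hp
  exact D.hii _ (D.intP hp) _ (C.cop_ex hc)

theorem E_mem {a : Submodule ℤ K} (ha : InMonoid C.O C.m a) :
    D.E a ∈ C.LL D.hA1 D.hA2 D.hA3 := by
  unfold Ctx.LL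
  rw [IntermediateField.mem_fixedField_iff]
  rintro g ⟨b, hb, hb1, rfl⟩
  rw [D.art_E ha hb]
  symm
  apply D.E_congr
  have h := hb1.mul C.hm ha
  rw [ha.1.1.unit_mul, mul_comm] at h
  exact h

theorem E_tau (a : Submodule ℤ K) (τ : H →+* ℂ)
    (hτ : ∀ x : K, τ (algebraMap K H x) = ((C.σ₂ x : ℝ) : ℂ)) : ‖τ (D.E a)‖ = 1 := by
  unfold E
  rw [map_prod, norm_prod]
  exact Finset.prod_eq_one (fun p hp => D.hiii _ (D.intP hp) τ hτ)

theorem E_sqrt (a : Submodule ℤ K) (z : ℂ) (hz : z ^ 2 = ((D.ι (D.E a) : ℝ) : ℂ))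
    (s t : ℂ ≃+* ℂ) (hs : ∀ x : K, s ((σ₁ x : ℝ) : ℂ) = ((σ₁ x : ℝ) : ℂ))
    (ht : ∀ x : K, t ((σ₁ x : ℝ) : ℂ) = ((σ₁ x : ℝ) : ℂ)) : s (t z) = t (s z) := by
  choose w hw using fun p : Submodule ℤ K =>
    IsAlgClosed.exists_pow_nat_eq (((D.ι (D.ε (C.ex p)) : ℝ) : ℂ)) (n := 2) two_pos
  have h1 : (∏ p ∈ D.R.Pf D.hfg a, w p) ^ 2 = z ^ 2 := by
    rw [hz, ← Finset.prod_pow]
    unfold E
    rw [map_prod]
    push_cast
    exact Finset.prod_congr rfl (fun p _ => hw p)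
  have h2 : s (t (∏ p ∈ D.R.Pf D.hfg a, w p)) = t (s (∏ p ∈ D.R.Pf D.hfg a, w p)) := by
    simp only [map_prod]
    exact Finset.prod_congr rfl (fun p hp => D.hiv _ (D.intP hp) _ (hw p) s t hs ht)
  rcases sq_eq_sq_iff_eq_or_eq_neg.1 h1 with h | h
  · rw [← h]
    exact h2
  · have h3 : z = -(∏ p ∈ D.R.Pf D.hfg a, w p) := by rw [h, neg_neg]
    rw [h3]
    simp only [map_neg]
    rw [h2]

/-- condition (i) -/
theorem E_exp {a : Submodule ℤ K} (ha : InMonoid C.O C.m a) {α : K}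
    (h1 : α + 1 ∈ C.m) (hα : 0 < C.σ₂ α) :
    ((D.ι (D.E a) : ℝ) : ℂ) =
      Complex.exp (-deriv (fun s => D.Z a s - D.Z (scale α a) s) 0) := by
  -- the element `N - 1`
  obtain ⟨β, hβ, hβN⟩ : ∃ β : K, β ∈ C.O ∧ β + 1 = (C.N : K) :=
    ⟨(C.N : K) - 1, C.O.sub_mem (natCast_mem C.O C.N) C.O.one_mem, by ring⟩
  have hβpos : 0 < C.σ₂ β := by
    have e : C.σ₂ β = (C.N : ℝ) - 1 := by
      have : β = (C.N : K) - 1 := by rw [← hβN]; ring
      rw [this, map_sub, map_natCast, map_one]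
    rw [e]
    have : (2 : ℝ) ≤ (C.N : ℝ) := by exact_mod_cast C.hN
    linarith
  have hβf : β + 1 ∈ C.f := by rw [hβN]; exact C.hNf
  have hα0 : α ≠ 0 := ne_zero_of_pos hα
  have hβ0 : β ≠ 0 := ne_zero_of_pos hβpos
  -- the two classes agree
  have hrel : RelS C.σ₂ C.O C.m (scale α a) (scale β a) := by
    refine ⟨β * α⁻¹, ?_, ?_, ?_⟩
    · rw [map_mul, map_inv₀]
      exact mul_pos hβpos (inv_pos.2 hα)
    · rw [scale_scale, mul_assoc, inv_mul_cancel₀ hα0, mul_one]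
    · intro x hx
      obtain ⟨y, hy, rfl⟩ := mem_scale.1 hx
      have e : (β * α⁻¹ - 1) * (α * y) = ((β + 1) - (α + 1)) * y := by
        field_simp
        ring
      rw [e]
      exact (InLoc.of_mem (C.m.sub_mem (C.hfm hβf) h1)).mul_unit C.hm C.hm (ha.2 y hy)
  -- the ideal `βO`
  have hc : CopIdeal C.O C.f (scale β (unitIdeal C.O)) := by
    refine ⟨isInvertible_unit.scale hβ0, ?_, β * (-1), smul_mem_scale (C.O.neg_mem C.O.one_mem),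
      (C.N : K), C.hNf, ?_⟩
    · intro x hx
      obtain ⟨y, hy, rfl⟩ := mem_scale.1 hx
      exact C.O.mul_mem hβ hy
    · rw [← hβN]
      ring
  obtain ⟨d, hd, _, hcd⟩ := C.exists_inv D.hA1 D.hA2 D.hA3 hc
  have hac : a * scale β (unitIdeal C.O) = scale β a := by
    rw [mul_scale, ha.1.1.mul_unit]
  have hexc : ∀ p, C.ex p * C.ex (scale β (unitIdeal C.O)) = scale β (C.ex p) := by
    intro p
    rw [C.ex_scale, C.ex_unit, mul_scale, (C.isMod_ex p).mul_unit]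
  have hβInt : ∀ {t : Submodule ℤ K}, Int' C.M t → Int' C.M (scale β t) := by
    intro t ht
    refine ⟨ht.1.scale hβ0, ?_⟩
    intro x hx
    obtain ⟨y, hy, rfl⟩ := mem_scale.1 hx
    exact C.M.mul_mem (C.hOM hβ) (ht.2 hy)
  have hZ : (fun s => D.Z a s - D.Z (scale α a) s) =
      fun s => ∑ p ∈ D.R.Pf D.hfg a, (D.G (C.ex p) s - D.G (scale β (C.ex p)) s) := by
    funext s
    rw [D.Z_congr hrel, ← hac]
    unfold Z
    rw [← D.R.sum_class D.hfg ha hc hd hcd (fun t => D.G t s)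
      (fun t t' h h' hr => by rw [D.hG1 t t' h h' hr]), Finset.sum_sub_distrib]
    congr 1
    exact Finset.sum_congr rfl (fun p _ => by rw [hexc])
  have hdiff : ∀ t, Int' C.M t → DifferentiableAt ℂ (D.G t) 0 := by
    intro t ht
    exact (D.hG2 t ht).differentiableAt (isOpen_compl_singleton.mem_nhds (by simp))
  rw [hZ, deriv_fun_sum (fun p hp => (show DifferentiableAt ℂ
    (fun s => D.G (C.ex p) s - D.G (scale β (C.ex p)) s) 0 from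
      (hdiff _ (D.intP hp)).sub (hdiff _ (hβInt (D.intP hp)))))]
  rw [← Finset.sum_neg_distrib, Complex.exp_sum]
  unfold E
  rw [map_prod]
  push_cast
  apply Finset.prod_congr rfl
  intro p hp
  exact D.hi _ (D.intP hp) β (C.hOM hβ) hβf hβpos

end Data

end H33.MS
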